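import Mathlib

set_option autoImplicit false

open MeasureTheory InnerProductSpace Laplacian

namespace Pool.Agent.Helper52.CKN

/-- Euclidean space of dimension `n`. -/
abbrev E (n : ℕ) := EuclideanSpace ℝ (Fin n)

/-- The `i`-th standard basis vector. -/
noncomputable abbrev bv {n : ℕ} (i : Fin n) : E n := EuclideanSpace.basisFun (Fin n) ℝ i

/-- The `i`-th partial derivative. -/
noncomputable def pd {n : ℕ} (i : Fin n) (f : E n → ℝ) (x : E n) : ℝ := fderiv ℝ f x (bv i)

variable {n : ℕ}

theorem lap_eq {f : E n → ℝ} (hf : ContDiff ℝ 2 f) (x : E n) :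
    Δ f x = ∑ i, pd i (pd i f) x := by
  rw [laplacian_eq_iteratedFDeriv_orthonormalBasis f (EuclideanSpace.basisFun (Fin n) ℝ)]
  apply Finset.sum_congr rfl
  intro i _
  rw [iteratedFDeriv_two_apply]
  unfold pd
  have h1 : DifferentiableAt ℝ (fderiv ℝ f) x :=
    ((hf.fderiv_right (m := 1) (by norm_num)).differentiable (by norm_num)) x
  have : (fun y => fderiv ℝ f y (bv i)) = fun y => (fderiv ℝ f y) ((fun _ : E n => bv i) y) := rfl
  rw [this, fderiv_clm_apply h1 (differentiableAt_const _)]
  simp

theorem pd_contDiff {f : E n → ℝ} {m : ℕ} (hf : ContDiff ℝ (m + 1 : ℕ) f) (i : Fin n) :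
    ContDiff ℝ m (pd i f) := by
  unfold pd
  exact (hf.fderiv_right (m := m) (by norm_cast)).clm_apply contDiff_const

theorem pd_hasCompactSupport {f : E n → ℝ} (hf : HasCompactSupport f) (i : Fin n) :
    HasCompactSupport (pd i f) := by
  unfold pd
  exact hf.fderiv_apply (𝕜 := ℝ) (bv i)

theorem lap_continuous {f : E n → ℝ} (hf : ContDiff ℝ 2 f) : Continuous (Δ f) := by
  have : Δ f = fun x => ∑ i, pd i (pd i f) x := funext (lap_eq hf)
  rw [this]
  apply continuous_finsetSum
  intro i _
  exact (pd_contDiff (m := 0) (pd_contDiff (m := 1) hf i) i).continuous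

theorem integral_pd {u φ : E n → ℝ} (hu : ContDiff ℝ 1 u) (hφ : ContDiff ℝ 1 φ)
    (hc : HasCompactSupport φ) (i : Fin n) :
    ∫ x, u x * pd i φ x = - ∫ x, pd i u x * φ x := by
  have hcu : Continuous (pd i u) := (pd_contDiff (m := 0) hu i).continuous
  have hcφ : Continuous (pd i φ) := (pd_contDiff (m := 0) hφ i).continuous
  apply integral_mul_fderiv_eq_neg_fderiv_mul_of_integrable
  · exact (hcu.mul hφ.continuous).integrable_of_hasCompactSupport hc.mul_left
  · exact (hu.continuous.mul hcφ).integrable_of_hasCompactSupport (pd_hasCompactSupport hc i).mul_left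
  · exact (hu.continuous.mul hφ.continuous).integrable_of_hasCompactSupport hc.mul_left
  · intro x _
    exact (hu.differentiable (by norm_num)) x
  · intro x _
    exact (hφ.differentiable (by norm_num)) x

theorem integral_mul_lap {u φ : E n → ℝ} (hu : ContDiff ℝ 2 u) (hφ : ContDiff ℝ 2 φ)
    (hc : HasCompactSupport φ) :
    ∫ x, u x * Δ φ x = ∫ x, Δ u x * φ x := by
  have h1 : ∀ i : Fin n, ∫ x, u x * pd i (pd i φ) x = ∫ x, pd i (pd i u) x * φ x := by
    intro i
    rw [integral_pd (hu.of_le (by norm_num)) (pd_contDiff (m := 1) hφ i) (pd_hasCompactSupport hc i) i]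
    have := integral_pd (pd_contDiff (m := 1) hu i) (hφ.of_le (by norm_num)) hc i
    rw [this, neg_neg]
  have e1 : (fun x => u x * Δ φ x) = fun x => ∑ i, u x * pd i (pd i φ) x := by
    funext x
    rw [lap_eq hφ, Finset.mul_sum]
  have e2 : (fun x => Δ u x * φ x) = fun x => ∑ i, pd i (pd i u) x * φ x := by
    funext x
    rw [lap_eq hu, Finset.sum_mul]
  rw [e1, e2, integral_finsetSum, integral_finsetSum]
  · exact Finset.sum_congr rfl (fun i _ => h1 i)
  · intro i _
    have hcu : Continuous (pd i (pd i u)) := (pd_contDiff (m := 0) (pd_contDiff (m := 1) hu i) i).continuous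
    exact (hcu.mul hφ.continuous).integrable_of_hasCompactSupport hc.mul_left
  · intro i _
    have hcφ : Continuous (pd i (pd i φ)) := (pd_contDiff (m := 0) (pd_contDiff (m := 1) hφ i) i).continuous
    exact (hu.continuous.mul hcφ).integrable_of_hasCompactSupport
      (pd_hasCompactSupport (pd_hasCompactSupport hc i) i).mul_left

theorem pd_mul {f g : E n → ℝ} {x : E n} (hf : DifferentiableAt ℝ f x) (hg : DifferentiableAt ℝ g x)
    (i : Fin n) : pd i (fun y => f y * g y) x = f x * pd i g x + pd i f x * g x := by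
  unfold pd
  rw [fderiv_fun_mul hf hg]
  simp
  ring

theorem lap_mul {f g : E n → ℝ} (hf : ContDiff ℝ 2 f) (hg : ContDiff ℝ 2 g) (x : E n) :
    Δ (fun y => f y * g y) x = f x * Δ g x + 2 * (∑ i, pd i f x * pd i g x) + Δ f x * g x := by
  rw [lap_eq (hf.mul hg), lap_eq hf, lap_eq hg]
  have hd : ∀ i, pd i (pd i (fun y => f y * g y)) x =
      f x * pd i (pd i g) x + 2 * (pd i f x * pd i g x) + pd i (pd i f) x * g x := by
    intro i
    have hfd : Differentiable ℝ f := hf.differentiable (by norm_num)
    have hgd : Differentiable ℝ g := hg.differentiable (by norm_num)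
    have hpf : Differentiable ℝ (pd i f) := (pd_contDiff (m := 1) hf i).differentiable (by norm_num)
    have hpg : Differentiable ℝ (pd i g) := (pd_contDiff (m := 1) hg i).differentiable (by norm_num)
    have h1 : pd i (fun y => f y * g y) = fun y => f y * pd i g y + pd i f y * g y := by
      funext y
      exact pd_mul (hfd y) (hgd y) i
    rw [h1]
    have h2 : pd i (fun y => f y * pd i g y + pd i f y * g y) x =
        pd i (fun y => f y * pd i g y) x + pd i (fun y => pd i f y * g y) x := by
      unfold pd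
      rw [fderiv_fun_add]
      · rfl
      · exact (hfd x).mul (hpg x)
      · exact (hpf x).mul (hgd x)
    rw [h2, pd_mul (hfd x) (hpg x), pd_mul (hpf x) (hgd x)]
    ring
  simp_rw [hd]
  rw [Finset.sum_add_distrib, Finset.sum_add_distrib, ← Finset.mul_sum, ← Finset.mul_sum, ← Finset.sum_mul]

end Pool.Agent.Helper52.CKN
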