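import Mathlib
import Pool.Agent.Helper52.CKN.Lap

set_option autoImplicit false

open MeasureTheory InnerProductSpace Laplacian Filter Topology

namespace Pool.Agent.Helper52.CKN

variable {n : ℕ}

/-- `(‖y - a‖² + c)^s`. -/
noncomputable def reg (a : E n) (c s : ℝ) (y : E n) : ℝ := (‖y - a‖ ^ 2 + c) ^ s

theorem reg_pos (a : E n) {c : ℝ} (hc : 0 < c) (y : E n) : 0 < ‖y - a‖ ^ 2 + c := by positivity

theorem reg_contDiff (a : E n) {c : ℝ} (hc : 0 < c) (s : ℝ) {m : ℕ∞} : ContDiff ℝ m (reg a c s) := by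
  unfold reg
  apply ContDiff.rpow_const_of_ne
  · exact ((contDiff_id.sub contDiff_const).norm_sq ℝ).add contDiff_const
  · intro y
    exact (reg_pos a hc y).ne'

theorem pd_reg (a : E n) {c : ℝ} (hc : 0 < c) (s : ℝ) (i : Fin n) (y : E n) :
    pd i (reg a c s) y = 2 * s * ((y i - a i) * reg a c (s - 1) y) := by
  unfold pd reg
  have h1 : HasFDerivAt (fun y : E n => ‖y - a‖ ^ 2 + c) (2 • (innerSL ℝ (y - a))) y := by
    have := ((hasFDerivAt_id y).sub_const a).norm_sq
    simpa using this.add_const c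
  have h2 := h1.rpow_const (p := s) (Or.inl (reg_pos a hc y).ne')
  rw [h2.fderiv]
  simp [EuclideanSpace.inner_single_right]
  ring

theorem pd_coord (a : E n) (i : Fin n) (y : E n) : pd i (fun y : E n => y i - a i) y = 1 := by
  unfold pd
  have h1 : HasFDerivAt (fun y : E n => y i - a i) (EuclideanSpace.proj (𝕜 := ℝ) i : E n →L[ℝ] ℝ) y :=
    (EuclideanSpace.proj (𝕜 := ℝ) i : E n →L[ℝ] ℝ).hasFDerivAt.sub_const (a i)
  rw [h1.fderiv]
  simp

theorem lap_reg (a : E n) {c : ℝ} (hc : 0 < c) (s : ℝ) (y : E n) :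
    Δ (reg a c s) y = 2 * s * n * reg a c (s - 1) y + 4 * s * (s - 1) * ‖y - a‖ ^ 2 * reg a c (s - 2) y := by
  rw [lap_eq (reg_contDiff a hc s (m := 2))]
  have h1 : ∀ i : Fin n, pd i (pd i (reg a c s)) y =
      2 * s * reg a c (s - 1) y + 4 * s * (s - 1) * (y i - a i) ^ 2 * reg a c (s - 2) y := by
    intro i
    have e1 : pd i (reg a c s) = fun y => (2 * s) * ((y i - a i) * reg a c (s - 1) y) := by
      funext y; exact pd_reg a hc s i y
    have hd1 : DifferentiableAt ℝ (fun y : E n => y i - a i) y := by fun_prop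
    have hd2 : DifferentiableAt ℝ (reg a c (s - 1)) y :=
      ((reg_contDiff a hc (s - 1) (m := 1)).differentiable (by norm_num)) y
    rw [e1]
    have e2 : pd i (fun y => (2 * s) * ((y i - a i) * reg a c (s - 1) y)) y =
        (2 * s) * pd i (fun y => (y i - a i) * reg a c (s - 1) y) y := by
      unfold pd
      have hd3 : DifferentiableAt ℝ (fun y : E n => (y i - a i) * reg a c (s - 1) y) y := hd1.mul hd2
      rw [fderiv_const_mul hd3]
      rfl
    rw [e2, pd_mul hd1 hd2, pd_coord, pd_reg a hc (s - 1) i y]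
    have : s - 1 - 1 = s - 2 := by ring
    rw [this]
    ring
  simp_rw [h1]
  have h2 : ∑ i : Fin n, (y i - a i) ^ 2 = ‖y - a‖ ^ 2 := by
    rw [EuclideanSpace.norm_sq_eq]
    simp
  rw [Finset.sum_add_distrib, ← h2, Finset.mul_sum, Finset.sum_mul]
  simp
  ring

/-- Laplacian of the regularised Newtonian kernel. -/
theorem lap_reg_newton (a : E n) {c : ℝ} (hc : 0 < c) (y : E n) :
    Δ (reg a c ((2 - n) / 2)) y = -(n * (n - 2) * c * reg a c (-((n : ℝ) + 2) / 2) y) := by
  rw [lap_reg a hc]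
  have hpos := reg_pos a hc y
  have e1 : reg a c ((2 - (n : ℝ)) / 2 - 1) y = (‖y - a‖ ^ 2 + c) * reg a c (-((n : ℝ) + 2) / 2) y := by
    unfold reg
    have : (2 - (n : ℝ)) / 2 - 1 = 1 + -((n : ℝ) + 2) / 2 := by ring
    rw [this, Real.rpow_add hpos, Real.rpow_one]
  have e2 : (2 - (n : ℝ)) / 2 - 2 = -((n : ℝ) + 2) / 2 := by ring
  rw [e1, e2]
  ring

/-- The constant of the Newtonian kernel. -/
noncomputable def kap (n : ℕ) : ℝ := ∫ z : E n, n * (n - 2) * (1 + ‖z‖ ^ 2) ^ (-((n : ℝ) + 2) / 2)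

theorem kap_integrable : Integrable (fun z : E n => n * (n - 2) * (1 + ‖z‖ ^ 2) ^ (-((n : ℝ) + 2) / 2)) := by
  apply Integrable.const_mul
  apply integrable_rpow_neg_one_add_norm_sq
  simp

theorem kap_pos (hn : 3 ≤ n) : 0 < kap n := by
  have hn' : (3 : ℝ) ≤ n := by exact_mod_cast hn
  unfold kap
  have hpos : ∀ z : E n, 0 < n * ((n : ℝ) - 2) * (1 + ‖z‖ ^ 2) ^ (-((n : ℝ) + 2) / 2) := by
    intro z
    have : 0 < (1 + ‖z‖ ^ 2 : ℝ) := by positivity
    have h2 : 0 < (n : ℝ) - 2 := by linarith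
    positivity
  rw [integral_pos_iff_support_of_nonneg (fun z => (hpos z).le) kap_integrable]
  have : Function.support (fun z : E n => n * ((n : ℝ) - 2) * (1 + ‖z‖ ^ 2) ^ (-((n : ℝ) + 2) / 2)) = Set.univ := by
    ext z
    simpa using (hpos z).ne'
  rw [this]
  simp only [Measure.measure_univ_pos]
  have : Nontrivial (E n) := by
    have : Nonempty (Fin n) := ⟨⟨0, by omega⟩⟩
    infer_instance
  exact NeZero.ne volume

/-- The Newtonian kernel `‖x - y‖^(2-n)`. -/
noncomputable def ker (x y : E n) : ℝ := ‖x - y‖ ^ (2 - (n : ℝ))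

theorem ker_nonneg (x y : E n) : 0 ≤ ker x y := Real.rpow_nonneg (norm_nonneg _) _

theorem ker_comm (x y : E n) : ker x y = ker y x := by
  unfold ker; rw [norm_sub_rev]

theorem ker_measurable : Measurable (fun p : E n × E n => ker p.1 p.2) := by
  unfold ker; fun_prop

theorem norm_rpow_locallyIntegrable (hn : 3 ≤ n) : LocallyIntegrable (fun z : E n => ‖z‖ ^ (2 - (n : ℝ))) := by
  have hn' : (3 : ℝ) ≤ n := by exact_mod_cast hn
  refine locallyIntegrable_of_norm_le_rpow (μ := volume) (C := 1) (α := (n : ℝ) - 2) ?_ ?_ ?_ ?_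
  · simp; omega
  · simp
  · filter_upwards with z
    rw [Real.norm_of_nonneg (Real.rpow_nonneg (norm_nonneg _) _), one_mul]
    apply le_of_eq
    congr 1
    ring
  · apply Measurable.aestronglyMeasurable
    fun_prop

theorem ker_mul_integrable (hn : 3 ≤ n) (x : E n) {g : E n → ℝ} (hg : Continuous g)
    (hc : HasCompactSupport g) : Integrable (fun y : E n => ker x y * g y) := by
  have h1 : Integrable (fun z : E n => ‖z‖ ^ (2 - (n : ℝ)) * g (z + x)) := by
    apply (norm_rpow_locallyIntegrable hn).integrable_smul_right_of_hasCompactSupport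
    · exact hg.comp (by fun_prop)
    · exact hc.comp_homeomorph (Homeomorph.addRight x)
  have h2 := h1.comp_sub_right x
  refine h2.congr ?_
  filter_upwards with y
  unfold ker
  rw [sub_add_cancel, norm_sub_rev]

theorem lap_hasCompactSupport {φ : E n → ℝ} (hφ : ContDiff ℝ 2 φ) (hc : HasCompactSupport φ) :
    HasCompactSupport (Δ φ) := by
  have h1 : HasCompactSupport (fun x => ∑ i, pd i (pd i φ) x) := by
    apply HasCompactSupport.of_support_subset_isCompact (K := tsupport φ) hc
    intro x hx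
    by_contra hnot
    apply hx
    apply Finset.sum_eq_zero
    intro i _
    have : x ∉ tsupport (pd i (pd i φ)) := by
      intro h
      apply hnot
      exact (tsupport_fderiv_apply_subset ℝ (bv i)) ((tsupport_fderiv_apply_subset ℝ (bv i)) h)
    exact image_eq_zero_of_notMem_tsupport this
  have : Δ φ = fun x => ∑ i, pd i (pd i φ) x := funext (lap_eq hφ)
  rw [this]
  exact h1

theorem nontrivial_E (hn : 3 ≤ n) : Nontrivial (E n) := by
  have : Nonempty (Fin n) := ⟨⟨0, by omega⟩⟩
  infer_instance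

theorem ae_ne (hn : 3 ≤ n) (x : E n) : ∀ᵐ y : E n, y ≠ x := by
  have := nontrivial_E hn
  rw [ae_iff]
  simp only [ne_eq, not_not, Set.setOf_eq_eq_singleton]
  exact measure_singleton x

theorem reg_nonneg (a : E n) {c : ℝ} (hc : 0 ≤ c) (s : ℝ) (y : E n) : 0 ≤ reg a c s y := by
  unfold reg; positivity

theorem ker_eq_rpow_sq {x y : E n} (h : 0 < ‖y - x‖) : ker y x = (‖y - x‖ ^ 2) ^ ((2 - (n : ℝ)) / 2) := by
  unfold ker
  rw [← Real.rpow_natCast, ← Real.rpow_mul h.le]
  congr 1
  push_cast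
  ring

/-- Representation of a compactly supported `C²` function by the Newtonian potential of its Laplacian. -/
theorem newton_repr (hn : 3 ≤ n) {φ : E n → ℝ} (hφ : ContDiff ℝ 2 φ) (hc : HasCompactSupport φ) (x : E n) :
    ∫ y, ker x y * Δ φ y = -(kap n * φ x) := by
  have hn' : (3 : ℝ) ≤ n := by exact_mod_cast hn
  let ε : ℕ → ℝ := fun k => 1 / ((k : ℝ) + 1)
  have hε : ∀ k, 0 < ε k := fun k => by positivity
  have hε0 : Tendsto ε atTop (𝓝 0) := tendsto_one_div_add_atTop_nhds_zero_nat
  -- the identity for the regularised kernel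
  have h1 : ∀ k, ∫ y, reg x (ε k ^ 2) ((2 - n) / 2) y * Δ φ y =
      - ∫ z : E n, n * (n - 2) * (1 + ‖z‖ ^ 2) ^ (-((n : ℝ) + 2) / 2) * φ (x + ε k • z) := by
    intro k
    have hk := hε k
    have hk2 : 0 < ε k ^ 2 := by positivity
    rw [integral_mul_lap (reg_contDiff x hk2 _ (m := 2)) hφ hc]
    simp_rw [lap_reg_newton x hk2]
    set F : E n → ℝ := fun y => n * (n - 2) * ε k ^ 2 * reg x (ε k ^ 2) (-((n : ℝ) + 2) / 2) y * φ y with hF
    have e1 : ∫ y, -(n * (n - 2) * ε k ^ 2 * reg x (ε k ^ 2) (-((n : ℝ) + 2) / 2) y) * φ y = - ∫ y, F y := by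
      rw [← integral_neg]
      congr 1
      funext y
      simp only [hF]
      ring
    have e2 : ∫ y, F y = ∫ w, F (x + w) := (integral_add_left_eq_self F x).symm
    have e3 : ∫ z : E n, F (x + ε k • z) = |(ε k ^ Module.finrank ℝ (E n))⁻¹| • ∫ w, F (x + w) :=
      Measure.integral_comp_smul volume (fun w => F (x + w)) (ε k)
    have e4 : ∀ z : E n, F (x + ε k • z) =
        (ε k ^ n)⁻¹ * (n * (n - 2) * (1 + ‖z‖ ^ 2) ^ (-((n : ℝ) + 2) / 2) * φ (x + ε k • z)) := by
      intro z
      simp only [hF, reg]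
      have hz : 0 < 1 + ‖z‖ ^ 2 := by positivity
      have g1 : ‖x + ε k • z - x‖ ^ 2 + ε k ^ 2 = ε k ^ 2 * (1 + ‖z‖ ^ 2) := by
        rw [add_sub_cancel_left, norm_smul, Real.norm_of_nonneg hk.le]
        ring
      rw [g1, Real.mul_rpow hk2.le hz.le]
      have g2 : (ε k ^ 2) ^ (-((n : ℝ) + 2) / 2) = (ε k ^ n)⁻¹ * (ε k ^ 2)⁻¹ := by
        rw [← Real.rpow_natCast (ε k) 2, ← Real.rpow_natCast (ε k) n, ← Real.rpow_mul hk.le,
          ← Real.rpow_neg hk.le, ← Real.rpow_neg hk.le, ← Real.rpow_add hk]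
        congr 1
        push_cast
        ring
      rw [g2]
      field_simp
    rw [e1, e2]
    simp_rw [e4] at e3
    rw [integral_const_mul] at e3
    have hd : Module.finrank ℝ (E n) = n := by simp
    rw [hd, abs_of_pos (by positivity), smul_eq_mul] at e3
    rw [mul_left_cancel₀ (by positivity) e3]
  -- limits of both sides
  have h2 : Tendsto (fun k => ∫ y, reg x (ε k ^ 2) ((2 - n) / 2) y * Δ φ y) atTop
      (𝓝 (∫ y, ker x y * Δ φ y)) := by
    apply tendsto_integral_of_dominated_convergence (fun y => ‖ker x y * Δ φ y‖)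
    · intro k
      apply Continuous.aestronglyMeasurable
      exact ((reg_contDiff x (by have := hε k; positivity) _ (m := 0)).continuous).mul (lap_continuous hφ)
    · exact (ker_mul_integrable hn x (lap_continuous hφ) (lap_hasCompactSupport hφ hc)).norm
    · intro k
      have hne : ∀ᵐ y : E n, y ≠ x := ae_ne hn x
      filter_upwards [hne] with y hy
      rw [norm_mul, norm_mul]
      apply mul_le_mul_of_nonneg_right _ (norm_nonneg _)
      have hyx : 0 < ‖y - x‖ := norm_pos_iff.mpr (sub_ne_zero.mpr hy)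
      rw [Real.norm_of_nonneg (ker_nonneg x y), ker_comm,
        Real.norm_of_nonneg (reg_nonneg x (by positivity) _ y)]
      rw [ker_eq_rpow_sq hyx]
      unfold reg
      apply Real.rpow_le_rpow_of_nonpos (by positivity)
      · have := hε k
        nlinarith [sq_nonneg (ε k)]
      · linarith
    · have hne : ∀ᵐ y : E n, y ≠ x := ae_ne hn x
      filter_upwards [hne] with y hy
      have hyx : 0 < ‖y - x‖ := norm_pos_iff.mpr (sub_ne_zero.mpr hy)
      apply Tendsto.mul_const
      rw [ker_comm, ker_eq_rpow_sq hyx]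
      unfold reg
      have hc1 : Tendsto (fun k => ‖y - x‖ ^ 2 + ε k ^ 2) atTop (𝓝 (‖y - x‖ ^ 2)) := by
        have := (hε0.pow 2).const_add (‖y - x‖ ^ 2)
        simpa using this
      exact hc1.rpow_const (Or.inl (by positivity))
  have h3 : Tendsto (fun k => - ∫ z : E n, n * (n - 2) * (1 + ‖z‖ ^ 2) ^ (-((n : ℝ) + 2) / 2) * φ (x + ε k • z))
      atTop (𝓝 (-(kap n * φ x))) := by
    apply Tendsto.neg
    have hk : kap n * φ x = ∫ z : E n, n * (n - 2) * (1 + ‖z‖ ^ 2) ^ (-((n : ℝ) + 2) / 2) * φ x := by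
      unfold kap
      rw [← integral_mul_const]
    rw [hk]
    obtain ⟨C, hC⟩ := hφ.continuous.bounded_above_of_compact_support hc
    apply tendsto_integral_of_dominated_convergence
      (fun z : E n => n * (n - 2) * (1 + ‖z‖ ^ 2) ^ (-((n : ℝ) + 2) / 2) * C)
    · intro k
      apply Continuous.aestronglyMeasurable
      apply Continuous.mul
      · apply Continuous.mul continuous_const
        apply Continuous.rpow_const (by fun_prop)
        intro z
        left
        positivity
      · exact hφ.continuous.comp (by fun_prop)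
    · exact kap_integrable.mul_const C
    · intro k
      filter_upwards with z
      have h2 : 0 ≤ (n : ℝ) * (n - 2) * (1 + ‖z‖ ^ 2) ^ (-((n : ℝ) + 2) / 2) := by
        have : (0 : ℝ) ≤ n - 2 := by linarith
        positivity
      rw [norm_mul, Real.norm_of_nonneg h2]
      exact mul_le_mul_of_nonneg_left (hC _) h2
    · filter_upwards with z
      apply Tendsto.const_mul
      have : Tendsto (fun k => x + ε k • z) atTop (𝓝 (x + (0 : ℝ) • z)) :=
        (hε0.smul_const z).const_add x
      rw [zero_smul, add_zero] at this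
      exact (hφ.continuous.tendsto x).comp this
  simp_rw [h1] at h2
  exact tendsto_nhds_unique h2 h3

end Pool.Agent.Helper52.CKN
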