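import Mathlib
import Pool.Agent.Helper52.CKN.Kernel

set_option autoImplicit false

open MeasureTheory InnerProductSpace Laplacian Filter Topology ENNReal

namespace Pool.Agent.Helper52.CKN

variable {n : ℕ}

/-- The weight `(1 + ‖y‖)^(2-n)`. -/
noncomputable def om (y : E n) : ℝ := (1 + ‖y‖) ^ (2 - (n : ℝ))

theorem om_pos (y : E n) : 0 < om y := by unfold om; positivity

theorem om_measurable : Measurable (om : E n → ℝ) := by unfold om; fun_prop

/-- Squared weighted norm `∫ ‖x‖^α f²` (with values in `[0, ∞]`). -/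
noncomputable def wsq (α : ℝ) (f : E n → ℝ) : ℝ≥0∞ := ∫⁻ x, ENNReal.ofReal (‖x‖ ^ α * f x ^ 2)

theorem weight_integrable (hn : 3 ≤ n) {α : ℝ} (h1 : 4 - (n : ℝ) < α) (h2 : α < n) :
    Integrable (fun y : E n => ‖y‖ ^ (-α) * om y ^ 2) := by
  have hn' : (3 : ℝ) ≤ n := by exact_mod_cast hn
  have hmeas : Measurable (fun y : E n => ‖y‖ ^ (-α) * om y ^ 2) := by
    unfold om; fun_prop
  rw [← integrableOn_univ, ← Set.union_compl_self (Metric.ball (0 : E n) 1)]
  apply IntegrableOn.union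
  · refine integrableOn_ball_of_norm_le_rpow (C := 1) (α := α) ?_ ?_ ?_ ?_
    · simp; omega
    · simpa using h2
    · filter_upwards with y
      rw [one_mul, norm_mul, Real.norm_of_nonneg (Real.rpow_nonneg (norm_nonneg _) _), norm_pow,
        Real.norm_of_nonneg (om_pos y).le]
      have hle : om y ≤ 1 := by
        unfold om
        apply Real.rpow_le_one_of_one_le_of_nonpos
        · linarith [norm_nonneg y]
        · linarith
      have : om y ^ 2 ≤ 1 := pow_le_one₀ (om_pos y).le hle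
      exact mul_le_of_le_one_right (Real.rpow_nonneg (norm_nonneg _) _) this
    · exact hmeas.aestronglyMeasurable
  · have hint : Integrable (fun y : E n => 2 ^ |α| * (1 + ‖y‖) ^ (-(2 * n - 4 + α))) := by
      apply Integrable.const_mul
      apply integrable_one_add_norm
      simp
      linarith
    apply Integrable.mono' hint.integrableOn hmeas.aestronglyMeasurable
    filter_upwards [ae_restrict_mem (Metric.isOpen_ball.measurableSet.compl)] with y hy
    have hy1 : 1 ≤ ‖y‖ := by simpa using hy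
    have hy0 : 0 < ‖y‖ := by linarith
    have hy2 : 0 < 1 + ‖y‖ := by linarith
    rw [norm_mul, Real.norm_of_nonneg (Real.rpow_nonneg (norm_nonneg _) _), norm_pow,
        Real.norm_of_nonneg (om_pos y).le]
    have e1 : om y ^ 2 = (1 + ‖y‖) ^ (-(2 * n - 4) : ℝ) := by
      unfold om
      rw [← Real.rpow_natCast, ← Real.rpow_mul hy2.le]
      congr 1
      push_cast
      ring
    have e2 : (1 + ‖y‖) ^ (-(2 * n - 4 + α)) = (1 + ‖y‖) ^ (-α) * (1 + ‖y‖) ^ (-(2 * n - 4) : ℝ) := by
      rw [← Real.rpow_add hy2]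
      congr 1
      ring
    rw [e1, e2, ← mul_assoc]
    apply mul_le_mul_of_nonneg_right _ (by positivity)
    rcases le_or_gt 0 α with hα | hα
    · rw [abs_of_nonneg hα, Real.rpow_neg hy0.le, Real.rpow_neg hy2.le]
      have : (1 + ‖y‖) ^ α ≤ 2 ^ α * ‖y‖ ^ α := by
        rw [← Real.mul_rpow (by norm_num) hy0.le]
        apply Real.rpow_le_rpow hy2.le (by linarith) hα
      have p1 : 0 < (1 + ‖y‖) ^ α := by positivity
      have p2 : 0 < ‖y‖ ^ α := by positivity
      rw [inv_eq_one_div, ← div_eq_mul_inv, div_le_div_iff₀ p2 p1]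
      linarith
    · have g1 : (1 : ℝ) ≤ 2 ^ |α| := Real.one_le_rpow (by norm_num) (abs_nonneg _)
      have g2 : ‖y‖ ^ (-α) ≤ (1 + ‖y‖) ^ (-α) := Real.rpow_le_rpow hy0.le (by linarith) (by linarith)
      calc ‖y‖ ^ (-α) ≤ 1 * (1 + ‖y‖) ^ (-α) := by rwa [one_mul]
        _ ≤ 2 ^ |α| * (1 + ‖y‖) ^ (-α) := mul_le_mul_of_nonneg_right g1 (by positivity)

/-- The constant in the weighted Cauchy-Schwarz inequality. -/
noncomputable def Cw (n : ℕ) (α : ℝ) : ℝ≥0∞ := ∫⁻ y : E n, ENNReal.ofReal (‖y‖ ^ (-α) * om y ^ 2)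

theorem Cw_lt_top (hn : 3 ≤ n) {α : ℝ} (h1 : 4 - (n : ℝ) < α) (h2 : α < n) : Cw n α < ∞ := by
  have h := (weight_integrable hn h1 h2).hasFiniteIntegral
  rw [hasFiniteIntegral_iff_ofReal] at h
  · exact h
  · filter_upwards with y
    have := om_pos y
    positivity

theorem lintegral_om_le (hn : 3 ≤ n) {α : ℝ} {f : E n → ℝ} (hf : AEMeasurable f) :
    ∫⁻ y, ENNReal.ofReal (om y * |f y|) ≤ Cw n α ^ (1 / 2 : ℝ) * wsq α f ^ (1 / 2 : ℝ) := by
  have hconj : Real.HolderConjugate 2 2 := Real.HolderConjugate.two_two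
  have h1 : ∀ᵐ y : E n, ENNReal.ofReal (om y * |f y|) =
      ENNReal.ofReal (‖y‖ ^ (-α / 2) * om y) * ENNReal.ofReal (‖y‖ ^ (α / 2) * |f y|) := by
    filter_upwards [ae_ne hn 0] with y hy
    have hy0 : 0 < ‖y‖ := norm_pos_iff.mpr hy
    have := om_pos y
    rw [← ENNReal.ofReal_mul (by positivity)]
    congr 1
    have e1 : ‖y‖ ^ (-α / 2) * ‖y‖ ^ (α / 2) = 1 := by
      rw [← Real.rpow_add hy0]
      have : -α / 2 + α / 2 = 0 := by ring
      rw [this, Real.rpow_zero]
    linear_combination (-(om y * |f y|)) * e1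
  rw [lintegral_congr_ae h1]
  have hm1 : AEMeasurable (fun y : E n => ENNReal.ofReal (‖y‖ ^ (-α / 2) * om y)) := by
    apply Measurable.aemeasurable
    unfold om
    fun_prop
  have hm2 : AEMeasurable (fun y : E n => ENNReal.ofReal (‖y‖ ^ (α / 2) * |f y|)) := by
    apply AEMeasurable.ennreal_ofReal
    apply AEMeasurable.mul
    · apply Measurable.aemeasurable; fun_prop
    · exact hf.abs
  refine le_trans (ENNReal.lintegral_mul_le_Lp_mul_Lq volume hconj hm1 hm2) ?_
  apply mul_le_mul' <;> apply ENNReal.rpow_le_rpow _ (by norm_num)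
  · apply le_of_eq
    unfold Cw
    apply lintegral_congr_ae
    filter_upwards [ae_ne hn 0] with y hy
    have hy0 : 0 < ‖y‖ := norm_pos_iff.mpr hy
    have := om_pos y
    rw [ENNReal.ofReal_rpow_of_nonneg (by positivity) (by norm_num)]
    congr 1
    rw [Real.mul_rpow (by positivity) this.le, ← Real.rpow_mul hy0.le]
    norm_num
  · apply le_of_eq
    unfold wsq
    apply lintegral_congr_ae
    filter_upwards [ae_ne hn 0] with y hy
    have hy0 : 0 < ‖y‖ := norm_pos_iff.mpr hy
    rw [ENNReal.ofReal_rpow_of_nonneg (by positivity) (by norm_num)]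
    congr 1
    rw [Real.mul_rpow (by positivity) (abs_nonneg _), ← Real.rpow_mul hy0.le]
    norm_num

theorem ker_ball_le (hn : 3 ≤ n) {ρ : ℝ} (hρ : 1 ≤ ρ) :
    ∃ C : ℝ≥0∞, C < ∞ ∧ ∀ y : E n, ∫⁻ x in Metric.ball (0 : E n) ρ, ENNReal.ofReal (ker x y) ≤
      C * ENNReal.ofReal (om y) := by
  have hn' : (3 : ℝ) ≤ n := by exact_mod_cast hn
  set A : ℝ≥0∞ := ∫⁻ z in Metric.ball (0 : E n) (3 * ρ), ENNReal.ofReal (‖z‖ ^ (2 - (n : ℝ))) with hA
  have hAfin : A < ∞ := by
    have h1 : IntegrableOn (fun z : E n => ‖z‖ ^ (2 - (n : ℝ))) (Metric.ball 0 (3 * ρ)) := by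
      apply ((norm_rpow_locallyIntegrable hn).integrableOn_isCompact
        (isCompact_closedBall (0 : E n) (3 * ρ))).mono_set Metric.ball_subset_closedBall
    have h2 := h1.hasFiniteIntegral
    rw [hasFiniteIntegral_iff_ofReal] at h2
    · exact h2
    · filter_upwards with y
      positivity
  refine ⟨A * ENNReal.ofReal ((1 + 2 * ρ) ^ ((n : ℝ) - 2)) +
    volume (Metric.ball (0 : E n) ρ) * ENNReal.ofReal (4 ^ ((n : ℝ) - 2)), ?_, ?_⟩
  · apply ENNReal.add_lt_top.mpr
    exact ⟨ENNReal.mul_lt_top hAfin ENNReal.ofReal_lt_top,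
      ENNReal.mul_lt_top measure_ball_lt_top ENNReal.ofReal_lt_top⟩
  · intro y
    rw [add_mul]
    have hy1 : 0 < 1 + ‖y‖ := by positivity
    rcases le_or_gt ‖y‖ (2 * ρ) with hy | hy
    · refine le_trans ?_ le_self_add
      have h1 : ∫⁻ x in Metric.ball (0 : E n) ρ, ENNReal.ofReal (ker x y) ≤ A := by
        have e0 : ∫⁻ x, (Metric.ball (0 : E n) (3 * ρ)).indicator
            (fun z => ENNReal.ofReal (‖z‖ ^ (2 - (n : ℝ)))) (x - y) = A := by
          rw [lintegral_sub_right_eq_self (fun x => (Metric.ball (0 : E n) (3 * ρ)).indicator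
            (fun z => ENNReal.ofReal (‖z‖ ^ (2 - (n : ℝ)))) x) y, hA,
            lintegral_indicator Metric.isOpen_ball.measurableSet]
        rw [← e0, ← lintegral_indicator Metric.isOpen_ball.measurableSet]
        apply lintegral_mono
        intro x
        by_cases hx : x ∈ Metric.ball (0 : E n) ρ
        · have hx' : x - y ∈ Metric.ball (0 : E n) (3 * ρ) := by
            rw [mem_ball_zero_iff] at hx ⊢
            calc ‖x - y‖ ≤ ‖x‖ + ‖y‖ := norm_sub_le _ _
              _ < 3 * ρ := by linarith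
          simp only [Set.indicator_of_mem hx, Set.indicator_of_mem hx']
          exact le_refl _
        · simp only [Set.indicator_of_notMem hx]
          exact zero_le
      refine le_trans h1 ?_
      rw [mul_assoc, ← ENNReal.ofReal_mul (by positivity)]
      have h2 : 1 ≤ (1 + 2 * ρ) ^ ((n : ℝ) - 2) * om y := by
        unfold om
        have e1 : (1 + ‖y‖) ^ (2 - (n : ℝ)) = ((1 + ‖y‖) ^ ((n : ℝ) - 2))⁻¹ := by
          rw [← Real.rpow_neg hy1.le]; congr 1; ring
        rw [e1, ← div_eq_mul_inv, one_le_div (by positivity)]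
        exact Real.rpow_le_rpow hy1.le (by linarith) (by linarith)
      calc A = A * 1 := (mul_one A).symm
        _ ≤ A * ENNReal.ofReal ((1 + 2 * ρ) ^ ((n : ℝ) - 2) * om y) := by
          apply mul_le_mul' le_rfl
          rw [← ENNReal.ofReal_one]
          exact ENNReal.ofReal_le_ofReal h2
    · refine le_trans ?_ le_add_self
      have h1 : ∀ x ∈ Metric.ball (0 : E n) ρ, ENNReal.ofReal (ker x y) ≤
          ENNReal.ofReal (4 ^ ((n : ℝ) - 2) * om y) := by
        intro x hx
        rw [mem_ball_zero_iff] at hx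
        apply ENNReal.ofReal_le_ofReal
        unfold ker om
        have h2 : (1 + ‖y‖) / 4 ≤ ‖x - y‖ := by
          have := norm_sub_norm_le y x
          rw [norm_sub_rev] at this
          linarith
        calc ‖x - y‖ ^ (2 - (n : ℝ)) ≤ ((1 + ‖y‖) / 4) ^ (2 - (n : ℝ)) :=
              Real.rpow_le_rpow_of_nonpos (by positivity) h2 (by linarith)
          _ = 4 ^ ((n : ℝ) - 2) * (1 + ‖y‖) ^ (2 - (n : ℝ)) := by
              rw [Real.div_rpow hy1.le (by norm_num)]
              have : (4 : ℝ) ^ (2 - (n : ℝ)) = (4 ^ ((n : ℝ) - 2))⁻¹ := by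
                rw [← Real.rpow_neg (by norm_num)]; congr 1; ring
              rw [this, div_inv_eq_mul, mul_comm]
      calc ∫⁻ x in Metric.ball (0 : E n) ρ, ENNReal.ofReal (ker x y)
          ≤ ∫⁻ x in Metric.ball (0 : E n) ρ, ENNReal.ofReal (4 ^ ((n : ℝ) - 2) * om y) :=
            setLIntegral_mono' Metric.isOpen_ball.measurableSet h1
        _ = volume (Metric.ball (0 : E n) ρ) * ENNReal.ofReal (4 ^ ((n : ℝ) - 2)) * ENNReal.ofReal (om y) := by
            rw [setLIntegral_const, ENNReal.ofReal_mul (by positivity)]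
            ring

theorem lintegral_pot_le (hn : 3 ≤ n) (α : ℝ) {ρ : ℝ} (hρ : 1 ≤ ρ) :
    ∃ C : ℝ≥0∞, C < ∞ ∧ ∀ f : E n → ℝ, AEMeasurable f →
      ∫⁻ x in Metric.ball (0 : E n) ρ, ∫⁻ y, ENNReal.ofReal (ker x y * |f y|) ≤
      C * (Cw n α ^ (1 / 2 : ℝ) * wsq α f ^ (1 / 2 : ℝ)) := by
  obtain ⟨C, hC, hker⟩ := ker_ball_le hn hρ
  refine ⟨C, hC, fun f hf => ?_⟩
  rw [lintegral_lintegral_swap]
  · calc ∫⁻ y, ∫⁻ x in Metric.ball (0 : E n) ρ, ENNReal.ofReal (ker x y * |f y|)
        = ∫⁻ y, (∫⁻ x in Metric.ball (0 : E n) ρ, ENNReal.ofReal (ker x y)) * ENNReal.ofReal |f y| := by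
          congr 1
          funext y
          rw [← lintegral_mul_const']
          · congr 1
            funext x
            rw [ENNReal.ofReal_mul (ker_nonneg x y)]
          · exact ENNReal.ofReal_ne_top
      _ ≤ ∫⁻ y, C * ENNReal.ofReal (om y * |f y|) := by
          apply lintegral_mono
          intro y
          simp only
          rw [ENNReal.ofReal_mul (om_pos y).le, ← mul_assoc]
          exact mul_le_mul' (hker y) le_rfl
      _ = C * ∫⁻ y, ENNReal.ofReal (om y * |f y|) := lintegral_const_mul' _ _ hC.ne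
      _ ≤ _ := mul_le_mul' le_rfl (lintegral_om_le hn hf)
  · apply AEMeasurable.ennreal_ofReal
    apply AEMeasurable.mul
    · exact ker_measurable.aemeasurable
    · exact (hf.comp_snd).abs

/-- The Newtonian potential (not normalised). -/
noncomputable def pot (f : E n → ℝ) (x : E n) : ℝ := ∫ y, ker x y * f y

theorem ae_lintegral_lt_top (hn : 3 ≤ n) {α : ℝ} (h1 : 4 - (n : ℝ) < α) (h2 : α < n) {f : E n → ℝ}
    (hf : AEMeasurable f) (hw : wsq α f < ∞) :
    ∀ᵐ x : E n, Integrable (fun y => ker x y * f y) := by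
  have hball : ∀ k : ℕ, ∀ᵐ x ∂(volume.restrict (Metric.ball (0 : E n) (k + 1))),
      Integrable (fun y => ker x y * f y) := by
    intro k
    obtain ⟨C, hC, hb⟩ := lintegral_pot_le (n := n) hn α (ρ := k + 1) (by linarith [(Nat.cast_nonneg k : (0 : ℝ) ≤ k)])
    have hfin : ∫⁻ x in Metric.ball (0 : E n) (k + 1), ∫⁻ y, ENNReal.ofReal (ker x y * |f y|) < ∞ := by
      refine lt_of_le_of_lt (hb f hf) ?_
      apply ENNReal.mul_lt_top hC
      exact ENNReal.mul_lt_top (ENNReal.rpow_lt_top_of_nonneg (by norm_num) (Cw_lt_top hn h1 h2).ne)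
        (ENNReal.rpow_lt_top_of_nonneg (by norm_num) hw.ne)
    have hmeas : AEMeasurable (fun x : E n => ∫⁻ y, ENNReal.ofReal (ker x y * |f y|))
        (volume.restrict (Metric.ball (0 : E n) (k + 1))) := by
      apply AEMeasurable.lintegral_prod_right'
        (f := fun p : E n × E n => ENNReal.ofReal (ker p.1 p.2 * |f p.2|))
      apply AEMeasurable.ennreal_ofReal
      apply AEMeasurable.mul
      · exact ker_measurable.aemeasurable
      · exact (hf.comp_snd).abs
    filter_upwards [ae_lt_top' hmeas hfin.ne] with x hx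
    constructor
    · apply AEMeasurable.aestronglyMeasurable
      apply AEMeasurable.mul _ hf
      exact (ker_measurable.comp measurable_prodMk_left).aemeasurable
    · rw [hasFiniteIntegral_iff_norm]
      convert hx using 1
      congr 1
      funext y
      rw [norm_mul, Real.norm_of_nonneg (ker_nonneg x y), Real.norm_eq_abs]
  have hun : (⋃ k : ℕ, Metric.ball (0 : E n) (k + 1)) = Set.univ := by
    rw [Set.eq_univ_iff_forall]
    intro x
    obtain ⟨k, hk⟩ := exists_nat_gt ‖x‖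
    rw [Set.mem_iUnion]
    exact ⟨k, by rw [mem_ball_zero_iff]; linarith⟩
  have := (ae_restrict_iUnion_iff (fun k : ℕ => Metric.ball (0 : E n) (k + 1)) _).mpr hball
  rwa [hun, Measure.restrict_univ] at this

theorem lintegral_enorm_pot_le (hn : 3 ≤ n) (α : ℝ) {ρ : ℝ} (hρ : 1 ≤ ρ) :
    ∃ C : ℝ≥0∞, C < ∞ ∧ ∀ f : E n → ℝ, AEMeasurable f →
      ∫⁻ x in Metric.ball (0 : E n) ρ, ‖pot f x‖ₑ ≤
      C * (Cw n α ^ (1 / 2 : ℝ) * wsq α f ^ (1 / 2 : ℝ)) := by
  obtain ⟨C, hC, hb⟩ := lintegral_pot_le (n := n) hn α hρ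
  refine ⟨C, hC, fun f hf => le_trans ?_ (hb f hf)⟩
  apply lintegral_mono
  intro x
  refine le_trans (enorm_integral_le_lintegral_enorm _) ?_
  apply le_of_eq
  congr 1
  funext y
  rw [← ofReal_norm, norm_mul, Real.norm_of_nonneg (ker_nonneg x y), Real.norm_eq_abs]

end Pool.Agent.Helper52.CKN
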