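import Mathlib
import Pool.Agent.Helper52.CKN.Pot

set_option autoImplicit false

open MeasureTheory InnerProductSpace Laplacian Filter Topology ENNReal

namespace Pool.Agent.Helper52.CKN

variable {n : ℕ}

open scoped Convolution

theorem pot_eq_conv (f : E n → ℝ) :
    pot f = (fun z : E n => ‖z‖ ^ (2 - (n : ℝ))) ⋆[ContinuousLinearMap.mul ℝ ℝ, volume] f := by
  funext x
  unfold pot convolution ker
  simp only [ContinuousLinearMap.mul_apply']
  rw [← integral_sub_left_eq_self (fun y => ‖x - y‖ ^ (2 - (n : ℝ)) * f y) volume x]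
  congr 1
  funext y
  have : x - (x - y) = y := by abel
  rw [this]

theorem pot_contDiff (hn : 3 ≤ n) {f : E n → ℝ} {m : ℕ∞} (hf : ContDiff ℝ m f) (hc : HasCompactSupport f) :
    ContDiff ℝ m (pot f) := by
  rw [pot_eq_conv]
  exact hc.contDiff_convolution_right _ (norm_rpow_locallyIntegrable hn) hf

theorem pd_pot (hn : 3 ≤ n) {f : E n → ℝ} (hf : ContDiff ℝ 1 f) (hc : HasCompactSupport f) (i : Fin n) :
    pd i (pot f) = pot (pd i f) := by
  funext x
  rw [pot_eq_conv, pot_eq_conv]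
  unfold pd
  rw [(hc.hasFDerivAt_convolution_right _ (norm_rpow_locallyIntegrable hn) hf x).fderiv]
  rw [convolution_precompR_apply]
  · exact norm_rpow_locallyIntegrable hn
  · exact hc.fderiv ℝ
  · exact hf.continuous_fderiv (by norm_num)

theorem lap_pot (hn : 3 ≤ n) {f : E n → ℝ} (hf : ContDiff ℝ 2 f) (hc : HasCompactSupport f) (x : E n) :
    Δ (pot f) x = -(kap n * f x) := by
  rw [lap_eq (pot_contDiff hn hf hc), ← newton_repr hn hf hc x]
  have h1 : ∀ i, pd i (pd i (pot f)) x = ∫ y, ker x y * pd i (pd i f) y := by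
    intro i
    rw [pd_pot hn (hf.of_le (by norm_num)) hc, pd_pot hn (pd_contDiff (m := 1) hf i) (pd_hasCompactSupport hc i)]
    rfl
  simp_rw [h1]
  rw [← integral_finsetSum]
  · congr 1
    funext y
    rw [lap_eq hf, Finset.mul_sum]
  · intro i _
    exact ker_mul_integrable hn x (pd_contDiff (m := 0) (pd_contDiff (m := 1) hf i) i).continuous
      (pd_hasCompactSupport (pd_hasCompactSupport hc i) i)

theorem integral_pd_eq_zero {f : E n → ℝ} (hf : ContDiff ℝ 1 f) (hc : HasCompactSupport f) (i : Fin n) :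
    ∫ y, pd i f y = 0 := by
  have h := integral_pd (u := fun _ => 1) contDiff_const hf hc i
  have h2 : ∀ x : E n, pd i (fun _ : E n => (1 : ℝ)) x = 0 := by
    intro x; unfold pd; simp
  simp only [h2, one_mul, zero_mul, integral_zero, neg_zero] at h
  exact h

/-- Mean value inequality for the kernel profile. -/
theorem rpow_sub_le (hn : 3 ≤ n) {r s t : ℝ} (hr : 0 < r) (hs : r ≤ s) (ht : r ≤ t) :
    |s ^ (2 - (n : ℝ)) - t ^ (2 - (n : ℝ))| ≤ (n - 2) * r ^ (1 - (n : ℝ)) * |s - t| := by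
  have hn' : (3 : ℝ) ≤ n := by exact_mod_cast hn
  have h := (convex_Ici r).norm_image_sub_le_of_norm_hasDerivWithin_le
    (f := fun s : ℝ => s ^ (2 - (n : ℝ))) (f' := fun s : ℝ => (2 - (n : ℝ)) * s ^ (2 - (n : ℝ) - 1))
    (C := (n - 2) * r ^ (1 - (n : ℝ))) ?_ ?_ (x := t) (y := s) ht hs
  · exact h
  · intro y hy
    have hy' : 0 < y := lt_of_lt_of_le hr hy
    exact (Real.hasDerivAt_rpow_const (Or.inl hy'.ne')).hasDerivWithinAt
  · intro y hy
    have hy' : 0 < y := lt_of_lt_of_le hr hy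
    rw [norm_mul, Real.norm_of_nonneg (Real.rpow_nonneg hy'.le _), Real.norm_eq_abs,
      abs_of_nonpos (by linarith)]
    have e1 : 2 - (n : ℝ) - 1 = 1 - n := by ring
    rw [e1]
    have e2 : -(2 - (n : ℝ)) = n - 2 := by ring
    rw [e2]
    apply mul_le_mul_of_nonneg_left _ (by linarith)
    exact Real.rpow_le_rpow_of_nonpos hr hy (by linarith)

theorem pot_decay (hn : 3 ≤ n) {f : E n → ℝ} (hf : ContDiff ℝ 1 f) (hc : HasCompactSupport f) :
    ∃ ρ : ℝ, 1 ≤ ρ ∧ ∃ M : ℝ, 0 ≤ M ∧ (∀ x : E n, ρ ≤ ‖x‖ → |pot f x| ≤ M * ‖x‖ ^ (2 - (n : ℝ))) ∧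
      (∀ x : E n, ρ ≤ ‖x‖ → ∀ i, |pd i (pot f) x| ≤ M * ‖x‖ ^ (1 - (n : ℝ))) := by
  have hn' : (3 : ℝ) ≤ n := by exact_mod_cast hn
  obtain ⟨r, hr⟩ := hc.isCompact.isBounded.subset_closedBall (0 : E n)
  set ρ0 : ℝ := max r 1 with hρ0
  have hρ1 : 1 ≤ ρ0 := le_max_right _ _
  have hsupp : ∀ y : E n, ρ0 < ‖y‖ → y ∉ tsupport f := by
    intro y hy hmem
    have := hr hmem
    rw [mem_closedBall_zero_iff] at this
    have : r ≤ ρ0 := le_max_left _ _
    linarith
  have hfint : Integrable f := hf.continuous.integrable_of_hasCompactSupport hc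
  have hpint : ∀ i, Integrable (pd i f) := fun i =>
    (pd_contDiff (m := 0) hf i).continuous.integrable_of_hasCompactSupport (pd_hasCompactSupport hc i)
  have hgeom : ∀ x y : E n, 2 * ρ0 ≤ ‖x‖ → ‖y‖ ≤ ρ0 → ‖x‖ / 2 ≤ ‖x - y‖ := by
    intro x y hx hy
    have := norm_sub_norm_le x y
    linarith
  set M1 : ℝ := (2 : ℝ) ^ ((n : ℝ) - 2) * ∫ y, |f y| with hM1
  set M2 : ℝ := ∑ i : Fin n, (n - 2) * (2 : ℝ) ^ ((n : ℝ) - 1) * ρ0 * ∫ y, |pd i f y| with hM2
  have hM10 : 0 ≤ M1 := by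
    have : 0 ≤ ∫ y, |f y| := integral_nonneg (fun y => abs_nonneg _)
    positivity
  have hterm : ∀ i : Fin n, 0 ≤ (n - 2) * (2 : ℝ) ^ ((n : ℝ) - 1) * ρ0 * ∫ y, |pd i f y| := by
    intro i
    have h1 : 0 ≤ ∫ y, |pd i f y| := integral_nonneg (fun y => abs_nonneg _)
    have h2 : (0 : ℝ) ≤ n - 2 := by linarith
    positivity
  have hM20 : 0 ≤ M2 := Finset.sum_nonneg (fun i _ => hterm i)
  refine ⟨2 * ρ0, by linarith, max M1 M2, le_max_of_le_left hM10, ?_, ?_⟩
  · intro x hx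
    have hx0 : 0 < ‖x‖ := by linarith
    have h1 : |pot f x| ≤ ∫ y, (‖x‖ / 2) ^ (2 - (n : ℝ)) * |f y| := by
      rw [← Real.norm_eq_abs]
      unfold pot
      apply norm_integral_le_of_norm_le (hfint.norm.const_mul _)
      filter_upwards with y
      rw [norm_mul, Real.norm_of_nonneg (ker_nonneg x y)]
      by_cases hy : ‖y‖ ≤ ρ0
      · apply mul_le_mul_of_nonneg_right _ (norm_nonneg _)
        exact Real.rpow_le_rpow_of_nonpos (by positivity) (hgeom x y hx hy) (by linarith)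
      · push Not at hy
        rw [image_eq_zero_of_notMem_tsupport (hsupp y hy)]
        simp
    rw [integral_const_mul] at h1
    have e1 : (‖x‖ / 2) ^ (2 - (n : ℝ)) = 2 ^ ((n : ℝ) - 2) * ‖x‖ ^ (2 - (n : ℝ)) := by
      rw [Real.div_rpow hx0.le (by norm_num)]
      have : (2 : ℝ) ^ (2 - (n : ℝ)) = (2 ^ ((n : ℝ) - 2))⁻¹ := by
        rw [← Real.rpow_neg (by norm_num)]; congr 1; ring
      rw [this, div_inv_eq_mul, mul_comm]
    rw [e1] at h1
    calc |pot f x| ≤ 2 ^ ((n : ℝ) - 2) * ‖x‖ ^ (2 - (n : ℝ)) * ∫ y, |f y| := h1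
      _ = M1 * ‖x‖ ^ (2 - (n : ℝ)) := by rw [hM1]; ring
      _ ≤ max M1 M2 * ‖x‖ ^ (2 - (n : ℝ)) :=
        mul_le_mul_of_nonneg_right (le_max_left _ _) (by positivity)
  · intro x hx i
    have hx0 : 0 < ‖x‖ := by linarith
    rw [pd_pot hn hf hc]
    have hz : pot (pd i f) x = ∫ y, (ker x y - ‖x‖ ^ (2 - (n : ℝ))) * pd i f y := by
      unfold pot
      simp_rw [sub_mul]
      rw [integral_sub, integral_const_mul, integral_pd_eq_zero hf hc i, mul_zero, sub_zero]
      · exact ker_mul_integrable hn x (pd_contDiff (m := 0) hf i).continuous (pd_hasCompactSupport hc i)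
      · exact (hpint i).const_mul _
    have h1 : |pot (pd i f) x| ≤ ∫ y, ((n - 2) * (‖x‖ / 2) ^ (1 - (n : ℝ)) * ρ0) * |pd i f y| := by
      rw [hz, ← Real.norm_eq_abs]
      apply norm_integral_le_of_norm_le ((hpint i).norm.const_mul _)
      filter_upwards with y
      rw [norm_mul]
      by_cases hy : ‖y‖ ≤ ρ0
      · apply mul_le_mul_of_nonneg_right _ (norm_nonneg _)
        unfold ker
        rw [Real.norm_eq_abs]
        refine le_trans (rpow_sub_le hn (r := ‖x‖ / 2) (by positivity) (hgeom x y hx hy) (by linarith)) ?_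
        apply mul_le_mul_of_nonneg_left
        · refine le_trans (abs_norm_sub_norm_le _ _) ?_
          rw [sub_sub_cancel_left, norm_neg]
          exact hy
        · have : (0 : ℝ) ≤ n - 2 := by linarith
          positivity
      · push Not at hy
        have : pd i f y = 0 := by
          have h3 : y ∉ tsupport (pd i f) := by
            intro h
            exact hsupp y hy ((tsupport_fderiv_apply_subset ℝ (bv i)) h)
          exact image_eq_zero_of_notMem_tsupport h3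
        rw [this]
        simp
    rw [integral_const_mul] at h1
    have e1 : (‖x‖ / 2) ^ (1 - (n : ℝ)) = 2 ^ ((n : ℝ) - 1) * ‖x‖ ^ (1 - (n : ℝ)) := by
      rw [Real.div_rpow hx0.le (by norm_num)]
      have : (2 : ℝ) ^ (1 - (n : ℝ)) = (2 ^ ((n : ℝ) - 1))⁻¹ := by
        rw [← Real.rpow_neg (by norm_num)]; congr 1; ring
      rw [this, div_inv_eq_mul, mul_comm]
    rw [e1] at h1
    calc |pot (pd i f) x| ≤ (n - 2) * (2 ^ ((n : ℝ) - 1) * ‖x‖ ^ (1 - (n : ℝ))) * ρ0 * ∫ y, |pd i f y| := h1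
      _ = ((n - 2) * (2 : ℝ) ^ ((n : ℝ) - 1) * ρ0 * ∫ y, |pd i f y|) * ‖x‖ ^ (1 - (n : ℝ)) := by ring
      _ ≤ M2 * ‖x‖ ^ (1 - (n : ℝ)) := by
        apply mul_le_mul_of_nonneg_right _ (by positivity)
        exact Finset.single_le_sum (f := fun i : Fin n => (n - 2) * (2 : ℝ) ^ ((n : ℝ) - 1) * ρ0 * ∫ y, |pd i f y|)
          (fun i _ => hterm i) (Finset.mem_univ i)
      _ ≤ max M1 M2 * ‖x‖ ^ (1 - (n : ℝ)) :=
        mul_le_mul_of_nonneg_right (le_max_right _ _) (by positivity)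

end Pool.Agent.Helper52.CKN
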