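import Mathlib
import Pool.Agent.Helper52.CKN.Smooth

set_option autoImplicit false

open MeasureTheory InnerProductSpace Laplacian Filter Topology ENNReal

namespace Pool.Agent.Helper52.CKN

variable {n : ℕ}

/-- Test functions: `C²` with compact support in `ℝⁿ ∖ {0}`. -/
def TestFn (φ : E n → ℝ) : Prop :=
  ContDiff ℝ 2 φ ∧ HasCompactSupport φ ∧ (0 : E n) ∉ tsupport φ

theorem pd_comp_smul {g : E n → ℝ} (hg : Differentiable ℝ g) (c : ℝ) (i : Fin n) (x : E n) :
    pd i (fun y => g (c • y)) x = c * pd i g (c • x) := by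
  unfold pd
  have h1 : HasFDerivAt (fun y : E n => c • y) (c • ContinuousLinearMap.id ℝ (E n)) x :=
    (hasFDerivAt_id x).const_smul c
  have h2 : HasFDerivAt (fun y => g (c • y)) ((fderiv ℝ g (c • x)).comp (c • ContinuousLinearMap.id ℝ (E n))) x :=
    (hg (c • x)).hasFDerivAt.comp x h1
  rw [h2.fderiv]
  simp

theorem lap_comp_smul {g : E n → ℝ} (hg : ContDiff ℝ 2 g) (c : ℝ) (x : E n) :
    Δ (fun y => g (c • y)) x = c ^ 2 * Δ g (c • x) := by
  have hc : ContDiff ℝ 2 (fun y : E n => g (c • y)) := hg.comp (contDiff_const_smul c)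
  rw [lap_eq hc, lap_eq hg, Finset.mul_sum]
  apply Finset.sum_congr rfl
  intro i _
  have hgd : Differentiable ℝ g := hg.differentiable (by norm_num)
  have hpg : Differentiable ℝ (pd i g) := (pd_contDiff (m := 1) hg i).differentiable (by norm_num)
  have e1 : pd i (fun y => g (c • y)) = fun y => c * pd i g (c • y) := by
    funext y; exact pd_comp_smul hgd c i y
  rw [e1]
  have hd : DifferentiableAt ℝ (fun y => pd i g (c • y)) x :=
    (hpg (c • x)).comp x (differentiableAt_id.const_smul c)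
  have e2 : pd i (fun y => c * pd i g (c • y)) x = c * pd i (fun y => pd i g (c • y)) x := by
    unfold pd at hd ⊢
    rw [fderiv_const_mul hd]
    rfl
  rw [e2, pd_comp_smul hpg]
  ring

theorem om_lower (hn : 3 ≤ n) {x : E n} (hx : ‖x‖ ≤ 1) : (2 : ℝ) ^ (2 - (n : ℝ)) ≤ om x := by
  have hn' : (3 : ℝ) ≤ n := by exact_mod_cast hn
  unfold om
  apply Real.rpow_le_rpow_of_nonpos (by positivity) (by linarith) (by linarith)

theorem rpow_le_om (hn : 3 ≤ n) {x : E n} (hx : 1 ≤ ‖x‖) :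
    ‖x‖ ^ (2 - (n : ℝ)) ≤ 2 ^ ((n : ℝ) - 2) * om x := by
  have hn' : (3 : ℝ) ≤ n := by exact_mod_cast hn
  unfold om
  have h1 : (0 : ℝ) < 1 + ‖x‖ := by positivity
  have e1 : 2 ^ ((n : ℝ) - 2) * (1 + ‖x‖) ^ (2 - (n : ℝ)) = ((1 + ‖x‖) / 2) ^ (2 - (n : ℝ)) := by
    rw [Real.div_rpow h1.le (by norm_num)]
    have : (2 : ℝ) ^ (2 - (n : ℝ)) = (2 ^ ((n : ℝ) - 2))⁻¹ := by
      rw [← Real.rpow_neg (by norm_num)]; congr 1; ring
    rw [this, div_inv_eq_mul, mul_comm]
  rw [e1]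
  apply Real.rpow_le_rpow_of_nonpos (by positivity) (by linarith) (by linarith)

theorem bounded_of_compact {g : E n → ℝ} (hg : Continuous g) (hc : HasCompactSupport g) :
    ∃ C : ℝ, 0 ≤ C ∧ ∀ x, |g x| ≤ C := by
  obtain ⟨C, hC⟩ := hg.bounded_above_of_compact_support hc
  exact ⟨max C 0, le_max_right _ _, fun x => le_trans (by simpa using hC x) (le_max_left _ _)⟩

/-- Pointwise estimate for the cut-off error. -/
theorem cutoff_error (hn : 3 ≤ n) {f : E n → ℝ} (hf : ContDiff ℝ 2 f) (hc : HasCompactSupport f)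
    (h0 : (0 : E n) ∉ tsupport f) :
    ∃ φ : ℕ → E n → ℝ, (∀ k, TestFn (φ k)) ∧
      (∀ x : E n, x ≠ 0 → ∀ᶠ k in atTop, Δ (φ k) x + kap n * f x = 0) ∧
      ∃ C : ℝ, ∀ k, ∀ x : E n, x ≠ 0 → |Δ (φ k) x + kap n * f x| ≤ C * (‖x‖ ^ (-2 : ℝ) * om x) := by
  have hn' : (3 : ℝ) ≤ n := by exact_mod_cast hn
  set v := pot f with hv
  have hvC : ContDiff ℝ 2 v := pot_contDiff hn (m := 2) hf hc
  have hlapv : ∀ x, Δ v x = -(kap n * f x) := fun x => lap_pot hn hf hc x
  obtain ⟨ρ, hρ1, M, hM0, hM1, hM2⟩ := pot_decay hn (hf.of_le (by norm_num)) hc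
  -- the support of `f`
  obtain ⟨r, hr⟩ := hc.isCompact.isBounded.subset_closedBall (0 : E n)
  obtain ⟨r0, hr0, hr0'⟩ : ∃ r0 > 0, ∀ x : E n, ‖x‖ < r0 → f x = 0 := by
    have : (tsupport f)ᶜ ∈ 𝓝 (0 : E n) := (isClosed_tsupport f).isOpen_compl.mem_nhds h0
    obtain ⟨r0, hr0, hb⟩ := Metric.mem_nhds_iff.mp this
    exact ⟨r0, hr0, fun x hx => image_eq_zero_of_notMem_tsupport (hb (by simpa using hx))⟩
  have hfar : ∀ x : E n, r < ‖x‖ → f x = 0 := by
    intro x hx
    apply image_eq_zero_of_notMem_tsupport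
    intro h
    have := hr h
    rw [mem_closedBall_zero_iff] at this
    linarith
  -- the bump
  obtain ⟨χ, hχC, hχc, hχ1, hχ0⟩ : ∃ χ : E n → ℝ, ContDiff ℝ 2 χ ∧ HasCompactSupport χ ∧
      (∀ x : E n, ‖x‖ ≤ 1 → χ x = 1) ∧ (∀ x : E n, 2 ≤ ‖x‖ → χ x = 0) := by
    let χ : ContDiffBump (0 : E n) := ⟨1, 2, by norm_num, by norm_num⟩
    refine ⟨χ, χ.contDiff, χ.hasCompactSupport, ?_, ?_⟩
    · intro x hx
      apply χ.one_of_mem_closedBall
      simpa using hx
    · intro x hx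
      apply χ.zero_of_le_dist
      simpa using hx
  obtain ⟨D2, hD20, hD2⟩ := bounded_of_compact (lap_continuous hχC) (lap_hasCompactSupport hχC hχc)
  obtain ⟨D1, hD10, hD1⟩ : ∃ D1 : ℝ, 0 ≤ D1 ∧ ∀ (i : Fin n) (x : E n), |pd i χ x| ≤ D1 := by
    have h1 : ∀ i : Fin n, ∃ C : ℝ, 0 ≤ C ∧ ∀ x, |pd i χ x| ≤ C := fun i =>
      bounded_of_compact (pd_contDiff (m := 1) hχC i).continuous (pd_hasCompactSupport hχc i)
    choose C hC0 hC using h1
    exact ⟨∑ i, C i, Finset.sum_nonneg (fun i _ => hC0 i),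
      fun i x => le_trans (hC i x) (Finset.single_le_sum (fun i _ => hC0 i) (Finset.mem_univ i))⟩
  obtain ⟨V, hV0, hV1, hV2⟩ : ∃ V : ℝ, 0 ≤ V ∧ (∀ x : E n, ‖x‖ ≤ 1 → |v x| ≤ V) ∧
      (∀ x : E n, ‖x‖ ≤ 1 → ∀ i, |pd i v x| ≤ V) := by
    have h1 : ∀ g : E n → ℝ, Continuous g → ∃ C : ℝ, 0 ≤ C ∧ ∀ x : E n, ‖x‖ ≤ 1 → |g x| ≤ C := by
      intro g hg
      obtain ⟨C, hC⟩ := (isCompact_closedBall (0 : E n) 1).exists_bound_of_continuousOn hg.continuousOn
      exact ⟨max C 0, le_max_right _ _, fun x hx =>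
        le_trans (hC x (by simpa using hx)) (le_max_left _ _)⟩
    obtain ⟨C0, hC00, hC0⟩ := h1 v hvC.continuous
    choose C hCC hC using fun i : Fin n => h1 (pd i v) (pd_contDiff (m := 1) hvC i).continuous
    have hsum : 0 ≤ ∑ i, C i := Finset.sum_nonneg (fun i _ => hCC i)
    refine ⟨C0 + ∑ i, C i, by linarith, fun x hx => le_trans (hC0 x hx) (by linarith), fun x hx i => ?_⟩
    have := Finset.single_le_sum (fun i _ => hCC i) (Finset.mem_univ i)
    linarith [hC i x hx]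
  -- the radii
  obtain ⟨K0, hK0⟩ := exists_nat_gt (max (max 2 (2 / r0)) (max r ρ))
  let R : ℕ → ℝ := fun k => k + K0
  have hRK : ∀ k, (K0 : ℝ) ≤ R k := fun k => by
    have : (0 : ℝ) ≤ k := Nat.cast_nonneg k
    show (K0 : ℝ) ≤ k + K0
    linarith
  have hR2 : ∀ k, 2 < R k := fun k =>
    lt_of_lt_of_le (lt_of_le_of_lt (le_trans (le_max_left _ _) (le_max_left _ _)) hK0) (hRK k)
  have hRr0 : ∀ k, 2 / R k < r0 := fun k => by
    have h1 : 2 / r0 < R k :=
      lt_of_lt_of_le (lt_of_le_of_lt (le_trans (le_max_right _ _) (le_max_left _ _)) hK0) (hRK k)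
    have h2 : 0 < R k := by linarith [hR2 k]
    rw [div_lt_iff₀ hr0] at h1
    rw [div_lt_iff₀ h2]
    linarith
  have hRr : ∀ k, r < R k := fun k =>
    lt_of_lt_of_le (lt_of_le_of_lt (le_trans (le_max_left _ _) (le_max_right _ _)) hK0) (hRK k)
  have hRρ : ∀ k, ρ < R k := fun k =>
    lt_of_lt_of_le (lt_of_le_of_lt (le_trans (le_max_right _ _) (le_max_right _ _)) hK0) (hRK k)
  have hRpos : ∀ k, 0 < R k := fun k => by linarith [hR2 k]
  let a : ℕ → E n → ℝ := fun k x => χ ((R k)⁻¹ • x)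
  let b : ℕ → E n → ℝ := fun k x => 1 - χ (R k • x)
  have haC : ∀ k, ContDiff ℝ 2 (a k) := fun k => hχC.comp (contDiff_const_smul _)
  have hbC : ∀ k, ContDiff ℝ 2 (b k) := fun k => contDiff_const.sub (hχC.comp (contDiff_const_smul _))
  let φ : ℕ → E n → ℝ := fun k x => (a k x * b k x) * v x
  have hφC : ∀ k, ContDiff ℝ 2 (φ k) := fun k => ((haC k).mul (hbC k)).mul hvC
  -- norms of rescaled points
  have hn1 : ∀ k (x : E n), ‖(R k)⁻¹ • x‖ = ‖x‖ / R k := by
    intro k x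
    rw [norm_smul, Real.norm_of_nonneg (by have := hRpos k; positivity)]
    ring
  have hn2 : ∀ k (x : E n), ‖R k • x‖ = R k * ‖x‖ := by
    intro k x
    rw [norm_smul, Real.norm_of_nonneg (hRpos k).le]
  have ha1 : ∀ k (x : E n), ‖x‖ ≤ R k → a k x = 1 := by
    intro k x hx
    apply hχ1
    rw [hn1, div_le_one (hRpos k)]
    exact hx
  have ha0 : ∀ k (x : E n), 2 * R k ≤ ‖x‖ → a k x = 0 := by
    intro k x hx
    apply hχ0
    rw [hn1, le_div_iff₀ (hRpos k)]
    exact hx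
  have hb0 : ∀ k (x : E n), R k * ‖x‖ ≤ 1 → b k x = 0 := by
    intro k x hx
    show 1 - χ (R k • x) = 0
    rw [hχ1 _ (by rw [hn2]; exact hx)]
    ring
  have hb1 : ∀ k (x : E n), 2 ≤ R k * ‖x‖ → b k x = 1 := by
    intro k x hx
    show 1 - χ (R k • x) = 1
    rw [hχ0 _ (by rw [hn2]; exact hx)]
    ring
  have hcontn : Continuous (fun x : E n => ‖x‖) := continuous_norm
  -- local forms of `φ k`
  have L1 : ∀ k (x : E n), ‖x‖ < R k → φ k =ᶠ[𝓝 x] fun y => b k y * v y := by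
    intro k x hx
    filter_upwards [(isOpen_lt hcontn continuous_const).mem_nhds hx] with y hy
    show (a k y * b k y) * v y = b k y * v y
    rw [ha1 k y (le_of_lt hy)]
    ring
  have L2 : ∀ k (x : E n), 2 < R k * ‖x‖ → φ k =ᶠ[𝓝 x] fun y => a k y * v y := by
    intro k x hx
    filter_upwards [(isOpen_lt continuous_const (continuous_const.mul hcontn)).mem_nhds hx] with y hy
    show (a k y * b k y) * v y = a k y * v y
    rw [hb1 k y (le_of_lt hy)]
    ring
  have L3 : ∀ k (x : E n), ‖x‖ < R k → 2 < R k * ‖x‖ → φ k =ᶠ[𝓝 x] v := by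
    intro k x hx hx'
    filter_upwards [(isOpen_lt continuous_const (continuous_const.mul hcontn)).mem_nhds hx',
      (isOpen_lt hcontn continuous_const).mem_nhds hx] with y hy hy'
    show (a k y * b k y) * v y = v y
    rw [hb1 k y (le_of_lt hy), ha1 k y (le_of_lt hy')]
    ring
  have L4 : ∀ k (x : E n), 2 * R k < ‖x‖ → φ k =ᶠ[𝓝 x] fun _ => 0 := by
    intro k x hx
    filter_upwards [(isOpen_lt continuous_const hcontn).mem_nhds hx] with y hy
    show (a k y * b k y) * v y = 0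
    rw [ha0 k y (le_of_lt hy)]
    ring
  have L5 : ∀ k (x : E n), R k * ‖x‖ < 1 → φ k =ᶠ[𝓝 x] 0 := by
    intro k x hx
    filter_upwards [(isOpen_lt (continuous_const.mul hcontn) continuous_const).mem_nhds hx] with y hy
    show (a k y * b k y) * v y = 0
    rw [hb0 k y (le_of_lt hy)]
    ring
  refine ⟨φ, ?_, ?_, ?_⟩
  · intro k
    refine ⟨hφC k, ?_, ?_⟩
    · apply HasCompactSupport.of_support_subset_isCompact (isCompact_closedBall (0 : E n) (2 * R k))
      intro x hx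
      rw [mem_closedBall_zero_iff]
      by_contra hlt
      push Not at hlt
      apply hx
      exact (L4 k x hlt).self_of_nhds
    · rw [notMem_tsupport_iff_eventuallyEq]
      exact L5 k 0 (by simp)
  · intro x hx
    have hx0 : 0 < ‖x‖ := norm_pos_iff.mpr hx
    have hRt : Tendsto R atTop atTop := tendsto_atTop_add_const_right _ _ tendsto_natCast_atTop_atTop
    filter_upwards [hRt.eventually_gt_atTop ‖x‖, hRt.eventually_gt_atTop (2 / ‖x‖)] with k h1 h2
    rw [div_lt_iff₀ hx0] at h2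
    rw [(laplacian_congr_nhds (L3 k x h1 h2)).self_of_nhds, hlapv]
    ring
  · set A : ℝ := 2 * n * D1 + D2 with hA
    have hA0 : 0 ≤ A := by positivity
    have h2p : (0 : ℝ) < 2 ^ ((n : ℝ) - 2) := by positivity
    refine ⟨4 * A * V * 2 ^ ((n : ℝ) - 2) + 4 * A * M * 2 ^ ((n : ℝ) - 2), fun k x hx => ?_⟩
    have hx0 : 0 < ‖x‖ := norm_pos_iff.mpr hx
    have hom := om_pos x
    have hRk := hRpos k
    have hpow2 : ‖x‖ ^ (-2 : ℝ) = (‖x‖ ^ 2)⁻¹ := by
      rw [Real.rpow_neg hx0.le]; norm_num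
    have hP1 : 0 ≤ 4 * A * V * 2 ^ ((n : ℝ) - 2) * (‖x‖ ^ (-2 : ℝ) * om x) := by positivity
    have hP2 : 0 ≤ 4 * A * M * 2 ^ ((n : ℝ) - 2) * (‖x‖ ^ (-2 : ℝ) * om x) := by positivity
    rw [add_mul]
    rcases lt_or_ge ‖x‖ (R k) with hlt | hge
    · rcases lt_or_ge 2 (R k * ‖x‖) with h2 | h2
      · -- middle region
        rw [(laplacian_congr_nhds (L3 k x hlt h2)).self_of_nhds, hlapv, neg_add_cancel, abs_zero]
        linarith
      · -- inner region
        have hxle : ‖x‖ ≤ 2 / R k := by rw [le_div_iff₀ hRk]; linarith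
        have hx1 : ‖x‖ ≤ 1 := le_trans hxle (by rw [div_le_one hRk]; linarith [hR2 k])
        have hfx : f x = 0 := hr0' x (lt_of_le_of_lt hxle (hRr0 k))
        have hlv : Δ v x = 0 := by rw [hlapv, hfx]; ring
        rw [(laplacian_congr_nhds (L1 k x hlt)).self_of_nhds, lap_mul (hbC k) hvC, hlv, hfx]
        have hpb : ∀ i, |pd i (b k) x| ≤ R k * D1 := by
          intro i
          have e1 : pd i (b k) x = -(R k * pd i χ (R k • x)) := by
            have h3 : pd i (fun y => χ (R k • y)) x = R k * pd i χ (R k • x) :=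
              pd_comp_smul (hχC.differentiable (by norm_num)) (R k) i x
            rw [← h3]
            show fderiv ℝ (fun y => 1 - χ (R k • y)) x (bv i) = _
            rw [fderiv_const_sub]
            rfl
          rw [e1, abs_neg, abs_mul, abs_of_pos hRk]
          exact mul_le_mul_of_nonneg_left (hD1 i _) hRk.le
        have hlb : |Δ (b k) x| ≤ R k ^ 2 * D2 := by
          have hcs : ContDiff ℝ 2 (fun y : E n => χ (R k • y)) := hχC.comp (contDiff_const_smul _)
          have e1 : Δ (b k) x = -(R k ^ 2 * Δ χ (R k • x)) := by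
            rw [← lap_comp_smul hχC (R k) x]
            have h4 : b k = (fun _ : E n => (1 : ℝ)) - (fun y => χ (R k • y)) := rfl
            rw [h4, ContDiffAt.laplacian_sub contDiffAt_const hcs.contDiffAt]
            have h5 : Δ (fun _ : E n => (1 : ℝ)) x = 0 := by
              rw [lap_eq contDiff_const]
              apply Finset.sum_eq_zero
              intro i _
              have : pd i (fun _ : E n => (1 : ℝ)) = fun _ => 0 := by
                funext y; unfold pd; simp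
              rw [this]; unfold pd; simp
            rw [h5, zero_sub]
          rw [e1, abs_neg, abs_mul, abs_of_nonneg (by positivity)]
          exact mul_le_mul_of_nonneg_left (hD2 _) (by positivity)
        have hsum : |∑ i, pd i (b k) x * pd i v x| ≤ n * (R k * D1 * V) := by
          refine le_trans (Finset.abs_sum_le_sum_abs _ _) ?_
          have : ∀ i ∈ Finset.univ, |pd i (b k) x * pd i v x| ≤ R k * D1 * V := by
            intro i _
            rw [abs_mul]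
            exact mul_le_mul (hpb i) (hV2 x hx1 i) (abs_nonneg _) (by positivity)
          refine le_trans (Finset.sum_le_sum this) ?_
          simp
        have hmain : |b k x * 0 + 2 * (∑ i, pd i (b k) x * pd i v x) + Δ (b k) x * v x + kap n * 0| ≤
            R k ^ 2 * (A * V) := by
          have e1 : b k x * 0 + 2 * (∑ i, pd i (b k) x * pd i v x) + Δ (b k) x * v x + kap n * 0 =
              2 * (∑ i, pd i (b k) x * pd i v x) + Δ (b k) x * v x := by ring
          rw [e1]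
          have e2 : |Δ (b k) x * v x| ≤ R k ^ 2 * D2 * V := by
            rw [abs_mul]
            exact mul_le_mul hlb (hV1 x hx1) (abs_nonneg _) (by positivity)
          have e3 : |2 * (∑ i, pd i (b k) x * pd i v x)| ≤ 2 * (n * (R k * D1 * V)) := by
            rw [abs_mul, abs_two]
            exact mul_le_mul_of_nonneg_left hsum (by norm_num)
          have e4 : R k ≤ R k ^ 2 := by nlinarith [hR2 k]
          have e5 : 2 * (n * (R k * D1 * V)) ≤ R k ^ 2 * (2 * n * D1 * V) := by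
            have : 0 ≤ 2 * n * D1 * V := by positivity
            nlinarith
          calc |2 * (∑ i, pd i (b k) x * pd i v x) + Δ (b k) x * v x|
              ≤ |2 * (∑ i, pd i (b k) x * pd i v x)| + |Δ (b k) x * v x| := abs_add_le _ _
            _ ≤ R k ^ 2 * (2 * n * D1 * V) + R k ^ 2 * D2 * V := by linarith
            _ = R k ^ 2 * (A * V) := by rw [hA]; ring
        have hRle : R k ^ 2 ≤ 4 * ‖x‖ ^ (-2 : ℝ) := by
          rw [hpow2, ← div_eq_mul_inv, le_div_iff₀ (by positivity)]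
          have : R k ^ 2 * ‖x‖ ^ 2 = (R k * ‖x‖) ^ 2 := by ring
          rw [this]
          have h3 : 0 ≤ R k * ‖x‖ := by positivity
          nlinarith
        have h1om : 1 ≤ 2 ^ ((n : ℝ) - 2) * om x := by
          have h3 := om_lower hn hx1
          have e1 : (2 : ℝ) ^ ((n : ℝ) - 2) * 2 ^ (2 - (n : ℝ)) = 1 := by
            rw [← Real.rpow_add (by norm_num)]
            have : (n : ℝ) - 2 + (2 - n) = 0 := by ring
            rw [this, Real.rpow_zero]
          calc (1 : ℝ) = 2 ^ ((n : ℝ) - 2) * 2 ^ (2 - (n : ℝ)) := e1.symm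
            _ ≤ 2 ^ ((n : ℝ) - 2) * om x := mul_le_mul_of_nonneg_left h3 h2p.le
        have hAV : 0 ≤ A * V := by positivity
        have hpp : 0 ≤ ‖x‖ ^ (-2 : ℝ) := by positivity
        calc _ ≤ R k ^ 2 * (A * V) := hmain
          _ ≤ 4 * ‖x‖ ^ (-2 : ℝ) * (A * V) := mul_le_mul_of_nonneg_right hRle hAV
          _ = 4 * A * V * ‖x‖ ^ (-2 : ℝ) * 1 := by ring
          _ ≤ 4 * A * V * ‖x‖ ^ (-2 : ℝ) * (2 ^ ((n : ℝ) - 2) * om x) :=
            mul_le_mul_of_nonneg_left h1om (by positivity)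
          _ ≤ _ := by linarith
    · -- outer region
      have hx1 : 1 < ‖x‖ := by linarith [hR2 k]
      have hfx : f x = 0 := hfar x (lt_of_lt_of_le (hRr k) hge)
      have hlv : Δ v x = 0 := by rw [hlapv, hfx]; ring
      have h2 : 2 < R k * ‖x‖ := by nlinarith [hR2 k]
      rcases lt_or_ge (2 * R k) ‖x‖ with h3 | h3
      · have h5 : Δ (fun _ : E n => (0 : ℝ)) x = 0 := by
          rw [lap_eq contDiff_const]
          apply Finset.sum_eq_zero
          intro i _
          have : pd i (fun _ : E n => (0 : ℝ)) = fun _ => 0 := by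
            funext y; unfold pd; simp
          rw [this]; unfold pd; simp
        rw [(laplacian_congr_nhds (L4 k x h3)).self_of_nhds, h5, hfx, mul_zero, add_zero, abs_zero]
        linarith
      · rw [(laplacian_congr_nhds (L2 k x h2)).self_of_nhds, lap_mul (haC k) hvC, hlv, hfx]
        have hρx : ρ ≤ ‖x‖ := by linarith [hRρ k]
        have hRi : (R k)⁻¹ ≤ 2 * ‖x‖⁻¹ := by
          rw [← div_eq_mul_inv, le_div_iff₀ hx0, inv_mul_le_iff₀ hRk]
          linarith
        have hRi0 : 0 < (R k)⁻¹ := by positivity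
        have hpa : ∀ i, |pd i (a k) x| ≤ (R k)⁻¹ * D1 := by
          intro i
          have e1 : pd i (a k) x = (R k)⁻¹ * pd i χ ((R k)⁻¹ • x) :=
            pd_comp_smul (hχC.differentiable (by norm_num)) (R k)⁻¹ i x
          rw [e1, abs_mul, abs_of_pos hRi0]
          exact mul_le_mul_of_nonneg_left (hD1 i _) hRi0.le
        have hla : |Δ (a k) x| ≤ (R k)⁻¹ ^ 2 * D2 := by
          have e1 : Δ (a k) x = (R k)⁻¹ ^ 2 * Δ χ ((R k)⁻¹ • x) := lap_comp_smul hχC (R k)⁻¹ x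
          rw [e1, abs_mul, abs_of_nonneg (by positivity)]
          exact mul_le_mul_of_nonneg_left (hD2 _) (by positivity)
        have hsum : |∑ i, pd i (a k) x * pd i v x| ≤ n * ((R k)⁻¹ * D1 * (M * ‖x‖ ^ (1 - (n : ℝ)))) := by
          refine le_trans (Finset.abs_sum_le_sum_abs _ _) ?_
          have : ∀ i ∈ Finset.univ, |pd i (a k) x * pd i v x| ≤ (R k)⁻¹ * D1 * (M * ‖x‖ ^ (1 - (n : ℝ))) := by
            intro i _
            rw [abs_mul]
            exact mul_le_mul (hpa i) (hM2 x hρx i) (abs_nonneg _) (by positivity)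
          refine le_trans (Finset.sum_le_sum this) ?_
          simp
        have e0 : a k x * 0 + 2 * (∑ i, pd i (a k) x * pd i v x) + Δ (a k) x * v x + kap n * 0 =
            2 * (∑ i, pd i (a k) x * pd i v x) + Δ (a k) x * v x := by ring
        rw [e0]
        have e2 : |Δ (a k) x * v x| ≤ (R k)⁻¹ ^ 2 * D2 * (M * ‖x‖ ^ (2 - (n : ℝ))) := by
          rw [abs_mul]
          exact mul_le_mul hla (hM1 x hρx) (abs_nonneg _) (by positivity)
        have e3 : |2 * (∑ i, pd i (a k) x * pd i v x)| ≤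
            2 * (n * ((R k)⁻¹ * D1 * (M * ‖x‖ ^ (1 - (n : ℝ))))) := by
          rw [abs_mul, abs_two]
          exact mul_le_mul_of_nonneg_left hsum (by norm_num)
        have e6 : ‖x‖⁻¹ * ‖x‖ ^ (1 - (n : ℝ)) = ‖x‖ ^ (-2 : ℝ) * ‖x‖ ^ (2 - (n : ℝ)) := by
          rw [← Real.rpow_neg_one ‖x‖, ← Real.rpow_add hx0, ← Real.rpow_add hx0]
          congr 1; ring
        have e7 : ‖x‖⁻¹ ^ 2 = ‖x‖ ^ (-2 : ℝ) := by rw [hpow2, inv_pow]
        have e4 : 2 * (n * ((R k)⁻¹ * D1 * (M * ‖x‖ ^ (1 - (n : ℝ))))) ≤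
            4 * (n * D1 * M) * (‖x‖ ^ (-2 : ℝ) * ‖x‖ ^ (2 - (n : ℝ))) := by
          rw [← e6]
          have h6 : 0 ≤ 2 * (n * (D1 * (M * ‖x‖ ^ (1 - (n : ℝ))))) := by positivity
          calc 2 * (n * ((R k)⁻¹ * D1 * (M * ‖x‖ ^ (1 - (n : ℝ)))))
              = (R k)⁻¹ * (2 * (n * (D1 * (M * ‖x‖ ^ (1 - (n : ℝ)))))) := by ring
            _ ≤ 2 * ‖x‖⁻¹ * (2 * (n * (D1 * (M * ‖x‖ ^ (1 - (n : ℝ)))))) :=
              mul_le_mul_of_nonneg_right hRi h6
            _ = _ := by ring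
        have e5 : (R k)⁻¹ ^ 2 * D2 * (M * ‖x‖ ^ (2 - (n : ℝ))) ≤
            4 * (D2 * M) * (‖x‖ ^ (-2 : ℝ) * ‖x‖ ^ (2 - (n : ℝ))) := by
          rw [← e7]
          have h6 : 0 ≤ D2 * (M * ‖x‖ ^ (2 - (n : ℝ))) := by positivity
          have h7 : (R k)⁻¹ ^ 2 ≤ (2 * ‖x‖⁻¹) ^ 2 := by
            apply pow_le_pow_left₀ hRi0.le hRi
          calc (R k)⁻¹ ^ 2 * D2 * (M * ‖x‖ ^ (2 - (n : ℝ)))
              = (R k)⁻¹ ^ 2 * (D2 * (M * ‖x‖ ^ (2 - (n : ℝ)))) := by ring
            _ ≤ (2 * ‖x‖⁻¹) ^ 2 * (D2 * (M * ‖x‖ ^ (2 - (n : ℝ)))) := mul_le_mul_of_nonneg_right h7 h6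
            _ = _ := by ring
        have h8 := rpow_le_om hn hx1.le
        have hpp : 0 ≤ ‖x‖ ^ (-2 : ℝ) := by positivity
        have h9 : 4 * (n * D1 * M) * (‖x‖ ^ (-2 : ℝ) * ‖x‖ ^ (2 - (n : ℝ))) +
            4 * (D2 * M) * (‖x‖ ^ (-2 : ℝ) * ‖x‖ ^ (2 - (n : ℝ))) ≤
            4 * A * M * (‖x‖ ^ (-2 : ℝ) * ‖x‖ ^ (2 - (n : ℝ))) := by
          have h10 : 0 ≤ ‖x‖ ^ (-2 : ℝ) * ‖x‖ ^ (2 - (n : ℝ)) := by positivity
          have h11 : 0 ≤ (n : ℝ) * D1 * M := by positivity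
          have : 4 * A * M * (‖x‖ ^ (-2 : ℝ) * ‖x‖ ^ (2 - (n : ℝ))) -
            (4 * (n * D1 * M) * (‖x‖ ^ (-2 : ℝ) * ‖x‖ ^ (2 - (n : ℝ))) +
            4 * (D2 * M) * (‖x‖ ^ (-2 : ℝ) * ‖x‖ ^ (2 - (n : ℝ)))) =
              4 * (n * D1 * M) * (‖x‖ ^ (-2 : ℝ) * ‖x‖ ^ (2 - (n : ℝ))) := by
            rw [hA]; ring
          nlinarith [mul_nonneg h11 h10]
        calc |2 * (∑ i, pd i (a k) x * pd i v x) + Δ (a k) x * v x|
            ≤ |2 * (∑ i, pd i (a k) x * pd i v x)| + |Δ (a k) x * v x| := abs_add_le _ _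
          _ ≤ 4 * A * M * (‖x‖ ^ (-2 : ℝ) * ‖x‖ ^ (2 - (n : ℝ))) := by linarith
          _ ≤ 4 * A * M * (‖x‖ ^ (-2 : ℝ) * (2 ^ ((n : ℝ) - 2) * om x)) := by
            apply mul_le_mul_of_nonneg_left _ (by positivity)
            exact mul_le_mul_of_nonneg_left h8 hpp
          _ ≤ _ := by linarith

end Pool.Agent.Helper52.CKN
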