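import Mathlib
import Pool.Agent.Helper52.CKN.Cutoff

set_option autoImplicit false

open MeasureTheory InnerProductSpace Laplacian Filter Topology ENNReal

namespace Pool.Agent.Helper52.CKN

variable {n : ℕ}

theorem ofReal_sq_add_le {t : ℝ} (ht : 0 ≤ t) (a b : ℝ) : ENNReal.ofReal (t * (a + b) ^ 2) ≤
    2 * ENNReal.ofReal (t * a ^ 2) + 2 * ENNReal.ofReal (t * b ^ 2) := by
  have h2 : (2 : ℝ≥0∞) = ENNReal.ofReal 2 := by simp
  rw [h2, ← ENNReal.ofReal_mul (by norm_num), ← ENNReal.ofReal_mul (by norm_num),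
    ← ENNReal.ofReal_add (by positivity) (by positivity)]
  apply ENNReal.ofReal_le_ofReal
  nlinarith [mul_nonneg ht (sq_nonneg (a - b))]

theorem wsq_add_le (α : ℝ) {f g : E n → ℝ} (hf : AEMeasurable f) :
    wsq α (fun x => f x + g x) ≤ 2 * wsq α f + 2 * wsq α g := by
  unfold wsq
  rw [← lintegral_const_mul' _ _ (by norm_num), ← lintegral_const_mul' _ _ (by norm_num), ← lintegral_add_left']
  · apply lintegral_mono
    intro x
    exact ofReal_sq_add_le (Real.rpow_nonneg (norm_nonneg _) _) (f x) (g x)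
  · apply AEMeasurable.const_mul
    apply AEMeasurable.ennreal_ofReal
    apply AEMeasurable.mul
    · apply Measurable.aemeasurable; fun_prop
    · exact hf.pow_const 2

theorem cutoff_tendsto (hn : 3 ≤ n) {α : ℝ} (h1 : 4 - (n : ℝ) < α) (h2 : α < n) {f : E n → ℝ}
    (hf : ContDiff ℝ 2 f) (hc : HasCompactSupport f) (h0 : (0 : E n) ∉ tsupport f) :
    ∃ φ : ℕ → E n → ℝ, (∀ k, TestFn (φ k)) ∧
      Tendsto (fun k => wsq α (fun x => Δ (φ k) x + kap n * f x)) atTop (𝓝 0) := by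
  obtain ⟨φ, hφ, hev, C, hC⟩ := cutoff_error hn hf hc h0
  refine ⟨φ, hφ, ?_⟩
  have hint := weight_integrable hn (α := 4 - α) (by linarith) (by linarith)
  have hbfin : ∫⁻ x : E n, ENNReal.ofReal (C ^ 2 * (‖x‖ ^ (-(4 - α)) * om x ^ 2)) ≠ ∞ := by
    have h3 := (hint.const_mul (C ^ 2)).hasFiniteIntegral
    rw [hasFiniteIntegral_iff_ofReal] at h3
    · exact h3.ne
    · filter_upwards with y
      have := om_pos y
      positivity
  have h4 : Tendsto (fun k => ∫⁻ x : E n, ENNReal.ofReal (‖x‖ ^ α * (Δ (φ k) x + kap n * f x) ^ 2)) atTop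
      (𝓝 (∫⁻ x : E n, 0)) := by
    apply tendsto_lintegral_of_dominated_convergence' _ _ _ hbfin
    · filter_upwards [ae_ne hn 0] with x hx
      apply tendsto_const_nhds.congr'
      filter_upwards [hev x hx] with k hk
      rw [hk]; simp
    · intro k
      apply Measurable.aemeasurable
      apply Measurable.ennreal_ofReal
      apply Measurable.mul (by fun_prop)
      apply Measurable.pow_const
      exact ((lap_continuous (hφ k).1).add (continuous_const.mul hf.continuous)).measurable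
    · intro k
      filter_upwards [ae_ne hn 0] with x hx
      apply ENNReal.ofReal_le_ofReal
      have hx0 : 0 < ‖x‖ := norm_pos_iff.mpr hx
      have hb := hC k x hx
      have hom := om_pos x
      have e1 : (Δ (φ k) x + kap n * f x) ^ 2 ≤ (C * (‖x‖ ^ (-2 : ℝ) * om x)) ^ 2 := by
        rw [← sq_abs]
        exact pow_le_pow_left₀ (abs_nonneg _) hb 2
      calc ‖x‖ ^ α * (Δ (φ k) x + kap n * f x) ^ 2 ≤ ‖x‖ ^ α * (C * (‖x‖ ^ (-2 : ℝ) * om x)) ^ 2 :=
            mul_le_mul_of_nonneg_left e1 (by positivity)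
        _ = C ^ 2 * (‖x‖ ^ (-(4 - α)) * om x ^ 2) := by
            have e2 : ‖x‖ ^ (-(4 - α)) = ‖x‖ ^ α * (‖x‖ ^ (-2 : ℝ)) ^ 2 := by
              rw [← Real.rpow_natCast (‖x‖ ^ (-2 : ℝ)) 2, ← Real.rpow_mul hx0.le, ← Real.rpow_add hx0]
              congr 1
              push_cast
              ring
            rw [e2]; ring
  rw [lintegral_zero] at h4
  exact h4

/-- Smooth functions with compact support in the punctured space, as a subspace of `L²`. -/
def smoothSub (n : ℕ) : Submodule ℝ (Lp ℝ 2 (volume : Measure (E n))) where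
  carrier := {F | ∃ φ : E n → ℝ, ContDiff ℝ (⊤ : ℕ∞) φ ∧ HasCompactSupport φ ∧ (0 : E n) ∉ tsupport φ ∧ F =ᵐ[volume] φ}
  zero_mem' := ⟨0, contDiff_const, HasCompactSupport.zero, by simp [tsupport], Lp.coeFn_zero _ _ _⟩
  add_mem' := by
    rintro F G ⟨φ, h1, h2, h3, h4⟩ ⟨ψ, g1, g2, g3, g4⟩
    refine ⟨φ + ψ, h1.add g1, h2.add g2, ?_, ?_⟩
    · rw [notMem_tsupport_iff_eventuallyEq] at h3 g3 ⊢
      filter_upwards [h3, g3] with x hx gx
      simp [hx, gx]
    · filter_upwards [Lp.coeFn_add F G, h4, g4] with x e1 e2 e3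
      rw [e1, Pi.add_apply, e2, e3, Pi.add_apply]
  smul_mem' := by
    rintro c F ⟨φ, h1, h2, h3, h4⟩
    refine ⟨c • φ, contDiff_const.smul h1, h2.smul_left, ?_, ?_⟩
    · rw [notMem_tsupport_iff_eventuallyEq] at h3 ⊢
      filter_upwards [h3] with x hx
      simp [hx]
    · filter_upwards [Lp.coeFn_smul c F, h4] with x e1 e2
      rw [e1, Pi.smul_apply, e2, Pi.smul_apply]

theorem smoothSub_dense (hn : 3 ≤ n) : (smoothSub n).topologicalClosure = ⊤ := by
  rw [Submodule.topologicalClosure_eq_top_iff, Submodule.eq_bot_iff]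
  intro h hh
  rw [Submodule.mem_orthogonal] at hh
  have hloc : LocallyIntegrable h (volume : Measure (E n)) := (Lp.memLp h).locallyIntegrable (by norm_num)
  have h1 : ∀ᵐ x : E n, x ∈ ({0}ᶜ : Set (E n)) → h x = 0 := by
    apply IsOpen.ae_eq_zero_of_integral_contDiff_smul_eq_zero isOpen_compl_singleton (hloc.locallyIntegrableOn _)
    intro g hg hgc hgs
    have hmem : MemLp g 2 (volume : Measure (E n)) := hg.continuous.memLp_of_hasCompactSupport hgc
    have h2 := hh (hmem.toLp g) ⟨g, hg, hgc, fun h0 => (hgs h0) rfl, hmem.coeFn_toLp⟩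
    rw [L2.inner_def] at h2
    rw [← h2]
    apply integral_congr_ae
    filter_upwards [hmem.coeFn_toLp] with x hx
    rw [hx]
    simp [mul_comm]
  rw [Lp.eq_zero_iff_ae_eq_zero]
  filter_upwards [h1, ae_ne hn 0] with x hx hx'
  exact hx hx'

theorem exists_smooth_approx (hn : 3 ≤ n) {g : E n → ℝ} (hg : MemLp g 2 (volume : Measure (E n)))
    {ε : ℝ} (hε : 0 < ε) :
    ∃ φ : E n → ℝ, ContDiff ℝ (⊤ : ℕ∞) φ ∧ HasCompactSupport φ ∧ (0 : E n) ∉ tsupport φ ∧
      ∫⁻ x, ENNReal.ofReal ((φ x - g x) ^ 2) < ENNReal.ofReal (ε ^ 2) := by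
  have hmem : hg.toLp g ∈ (smoothSub n).topologicalClosure := by
    rw [smoothSub_dense hn]; exact Submodule.mem_top
  have hmem' : hg.toLp g ∈ closure (smoothSub n : Set (Lp ℝ 2 (volume : Measure (E n)))) := hmem
  rw [Metric.mem_closure_iff] at hmem'
  obtain ⟨F, ⟨φ, h1, h2, h3, h4⟩, hd⟩ := hmem' ε hε
  refine ⟨φ, h1, h2, h3, ?_⟩
  rw [dist_comm, dist_eq_norm, Lp.norm_def] at hd
  have h5 : eLpNorm (F - hg.toLp g : Lp ℝ 2 (volume : Measure (E n))) 2 volume < ENNReal.ofReal ε := by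
    rw [← ENNReal.ofReal_toReal (Lp.eLpNorm_ne_top _)]
    exact (ENNReal.ofReal_lt_ofReal_iff hε).mpr hd
  have h6 : eLpNorm (F - hg.toLp g : Lp ℝ 2 (volume : Measure (E n))) 2 volume =
      (∫⁻ x, ENNReal.ofReal ((φ x - g x) ^ 2)) ^ (1 / 2 : ℝ) := by
    rw [eLpNorm_eq_lintegral_rpow_enorm_toReal (by norm_num) (by norm_num)]
    simp only [ENNReal.toReal_ofNat]
    congr 1
    apply lintegral_congr_ae
    filter_upwards [Lp.coeFn_sub F (hg.toLp g), h4, hg.coeFn_toLp] with x e1 e2 e3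
    rw [e1, Pi.sub_apply, e2, e3, ← ofReal_norm, ENNReal.ofReal_rpow_of_nonneg (norm_nonneg _) (by norm_num)]
    congr 1
    rw [Real.rpow_two, Real.norm_eq_abs, sq_abs]
  rw [h6] at h5
  have h7 := ENNReal.rpow_lt_rpow h5 (z := 2) (by norm_num)
  rw [← ENNReal.rpow_mul] at h7
  norm_num at h7
  rw [ENNReal.ofReal_pow hε.le]
  exact h7

/-- Density of the Laplacians of test functions in the weighted space. -/
theorem exists_test_approx (hn : 3 ≤ n) {α : ℝ} (h1 : 4 - (n : ℝ) < α) (h2 : α < n) {h : E n → ℝ}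
    (hm : AEMeasurable h) (hw : wsq α h < ∞) {ε : ℝ} (hε : 0 < ε) :
    ∃ φ : E n → ℝ, TestFn φ ∧ wsq α (fun x => Δ φ x - h x) ≤ ENNReal.ofReal ε := by
  have hκ := kap_pos hn
  -- `L²` function
  set g : E n → ℝ := fun x => ‖x‖ ^ (α / 2) * h x with hg
  have hgm : AEMeasurable g := by
    apply AEMeasurable.mul _ hm
    apply Measurable.aemeasurable; fun_prop
  have hsq : ∀ x : E n, x ≠ 0 → (‖x‖ ^ (α / 2)) ^ 2 = ‖x‖ ^ α := by
    intro x hx
    have hx0 : 0 < ‖x‖ := norm_pos_iff.mpr hx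
    rw [← Real.rpow_natCast, ← Real.rpow_mul hx0.le]
    congr 1; push_cast; ring
  have hgL : MemLp g 2 (volume : Measure (E n)) := by
    refine ⟨hgm.aestronglyMeasurable, ?_⟩
    rw [eLpNorm_lt_top_iff_lintegral_rpow_enorm_lt_top (by norm_num) (by norm_num)]
    simp only [ENNReal.toReal_ofNat]
    have : ∫⁻ x, ‖g x‖ₑ ^ (2 : ℝ) = wsq α h := by
      unfold wsq
      apply lintegral_congr_ae
      filter_upwards [ae_ne hn 0] with x hx
      rw [← ofReal_norm, ENNReal.ofReal_rpow_of_nonneg (norm_nonneg _) (by norm_num)]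
      congr 1
      rw [Real.rpow_two, Real.norm_eq_abs, sq_abs, hg]
      simp only
      rw [mul_pow, hsq x hx]
    rw [this]
    exact hw
  -- choose accuracy
  obtain ⟨δ, hδ, hδε⟩ : ∃ δ : ℝ, 0 < δ ∧ δ ^ 2 = ε / 4 :=
    ⟨Real.sqrt (ε / 4), Real.sqrt_pos.mpr (by linarith), Real.sq_sqrt (by linarith)⟩
  obtain ⟨ψ, p1, p2, p3, p4⟩ := exists_smooth_approx hn hgL hδ
  -- the source
  set f : E n → ℝ := fun x => (-(kap n)⁻¹ * ‖x‖ ^ (-(α / 2))) * ψ x with hf
  have hfsub : tsupport f ⊆ tsupport ψ := tsupport_mul_subset_right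
  have hfC : ContDiff ℝ 2 f := by
    rw [contDiff_iff_contDiffAt]
    intro x
    by_cases hx : x ∈ tsupport ψ
    · have hx0 : x ≠ 0 := fun h => p3 (h ▸ hx)
      apply ContDiffAt.mul
      · apply contDiffAt_const.mul
        exact (contDiffAt_norm ℝ hx0).rpow_const_of_ne (norm_ne_zero_iff.mpr hx0)
      · exact (p1.contDiffAt).of_le (WithTop.coe_le_coe.mpr (le_top : ((2 : ℕ∞)) ≤ ⊤))
    · have : f =ᶠ[𝓝 x] fun _ => 0 := by
        have h5 := notMem_tsupport_iff_eventuallyEq.mp (fun h => hx (hfsub h))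
        exact h5
      exact contDiffAt_const.congr_of_eventuallyEq this
  have hfc : HasCompactSupport f := p2.mul_left
  have hf0 : (0 : E n) ∉ tsupport f := fun h => p3 (hfsub h)
  obtain ⟨φ, hφ, hlim⟩ := cutoff_tendsto hn h1 h2 hfC hfc hf0
  have hev : ∀ᶠ k in atTop, wsq α (fun x => Δ (φ k) x + kap n * f x) < ENNReal.ofReal (ε / 4) := by
    apply hlim.eventually_lt_const
    exact ENNReal.ofReal_pos.mpr (by linarith)
  obtain ⟨k, hk⟩ := hev.exists
  refine ⟨φ k, hφ k, ?_⟩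
  have h3 : wsq α (fun x => Δ (φ k) x - h x) ≤
      2 * wsq α (fun x => Δ (φ k) x + kap n * f x) + 2 * wsq α (fun x => -(kap n * f x) - h x) := by
    have := wsq_add_le α (f := fun x => Δ (φ k) x + kap n * f x) (g := fun x => -(kap n * f x) - h x)
      ((lap_continuous (hφ k).1).add (continuous_const.mul hfC.continuous)).aemeasurable
    refine le_trans (le_of_eq ?_) this
    congr 1
    funext x
    ring
  have h4 : wsq α (fun x => -(kap n * f x) - h x) = ∫⁻ x, ENNReal.ofReal ((ψ x - g x) ^ 2) := by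
    unfold wsq
    apply lintegral_congr_ae
    filter_upwards [ae_ne hn 0] with x hx
    congr 1
    have hx0 : 0 < ‖x‖ := norm_pos_iff.mpr hx
    have e1 : ‖x‖ ^ (α / 2) * ‖x‖ ^ (-(α / 2)) = 1 := by
      rw [← Real.rpow_add hx0]
      have : α / 2 + -(α / 2) = 0 := by ring
      rw [this, Real.rpow_zero]
    have e2 : kap n * (kap n)⁻¹ = 1 := mul_inv_cancel₀ hκ.ne'
    rw [← hsq x hx, ← mul_pow]
    congr 1
    simp only [hf, hg]
    linear_combination (kap n * (kap n)⁻¹ * ψ x) * e1 + (ψ x) * e2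
  rw [h4] at h3
  rw [hδε] at p4
  have e4 : (2 : ℝ≥0∞) * ENNReal.ofReal (ε / 4) + 2 * ENNReal.ofReal (ε / 4) = ENNReal.ofReal ε := by
    have h2 : (2 : ℝ≥0∞) = ENNReal.ofReal 2 := by simp
    rw [h2, ← ENNReal.ofReal_mul (by norm_num), ← ENNReal.ofReal_add (by linarith) (by linarith)]
    congr 1
    ring
  calc wsq α (fun x => Δ (φ k) x - h x) ≤ _ := h3
    _ ≤ 2 * ENNReal.ofReal (ε / 4) + 2 * ENNReal.ofReal (ε / 4) :=
      add_le_add (mul_le_mul' le_rfl hk.le) (mul_le_mul' le_rfl p4.le)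
    _ = ENNReal.ofReal ε := e4

end Pool.Agent.Helper52.CKN
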