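import Mathlib
import Pool.Agent.Helper52.CKN.Dense

set_option autoImplicit false

open MeasureTheory InnerProductSpace Laplacian Filter Topology ENNReal

namespace Pool.Agent.Helper52.CKN

variable {n : ℕ}

/-- The unweighted `L²` representative. -/
noncomputable def tw (α : ℝ) (h : E n → ℝ) (x : E n) : ℝ := ‖x‖ ^ (α / 2) * h x

theorem tw_aem (α : ℝ) {h : E n → ℝ} (hm : AEMeasurable h) : AEMeasurable (tw α h) := by
  apply AEMeasurable.mul _ hm
  apply Measurable.aemeasurable; fun_prop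

theorem wsq_eq_eLpNorm (hn : 3 ≤ n) (α : ℝ) (h : E n → ℝ) :
    wsq α h = eLpNorm (tw α h) 2 volume ^ 2 := by
  rw [eLpNorm_eq_lintegral_rpow_enorm_toReal (by norm_num) (by norm_num)]
  simp only [ENNReal.toReal_ofNat]
  rw [← ENNReal.rpow_natCast, ← ENNReal.rpow_mul]
  norm_num
  unfold wsq
  apply lintegral_congr_ae
  filter_upwards [ae_ne hn 0] with x hx
  have hx0 : 0 < ‖x‖ := norm_pos_iff.mpr hx
  rw [← ofReal_norm, ← ENNReal.ofReal_pow (norm_nonneg _)]
  congr 1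
  rw [Real.norm_eq_abs, sq_abs, tw, mul_pow, ← Real.rpow_natCast (‖x‖ ^ (α / 2)) 2, ← Real.rpow_mul hx0.le]
  congr 2
  push_cast; ring

theorem tw_memLp (hn : 3 ≤ n) {α : ℝ} {h : E n → ℝ} (hm : AEMeasurable h) (hw : wsq α h < ∞) :
    MemLp (tw α h) 2 volume := by
  refine ⟨(tw_aem α hm).aestronglyMeasurable, ?_⟩
  rw [wsq_eq_eLpNorm hn] at hw
  by_contra hcon
  push Not at hcon
  rw [top_le_iff] at hcon
  rw [hcon] at hw
  simp at hw

theorem wsq_eq_norm (hn : 3 ≤ n) {α : ℝ} {h : E n → ℝ} (hL : MemLp (tw α h) 2 volume) :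
    wsq α h = ENNReal.ofReal (‖hL.toLp (tw α h)‖ ^ 2) := by
  rw [wsq_eq_eLpNorm hn, Lp.norm_toLp, ENNReal.ofReal_pow ENNReal.toReal_nonneg,
    ENNReal.ofReal_toReal hL.eLpNorm_ne_top]

theorem test_wsq_lt_top {φ : E n → ℝ} (hφ : TestFn φ) (α : ℝ) : wsq α (Δ φ) < ∞ := by
  have hcont : Continuous (fun x : E n => ‖x‖ ^ α * (Δ φ x) ^ 2) := by
    rw [continuous_iff_continuousAt]
    intro x
    by_cases hx : x = 0
    · subst hx
      have h0 : φ =ᶠ[𝓝 0] fun _ => 0 := notMem_tsupport_iff_eventuallyEq.mp hφ.2.2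
      have h1 : Δ φ =ᶠ[𝓝 0] fun _ => 0 := by
        have h2 := laplacian_congr_nhds h0
        have h3 : Δ (fun _ : E n => (0 : ℝ)) = fun _ => 0 := by
          funext y; simp
        rw [h3] at h2
        exact h2
      have h4 : (fun x : E n => ‖x‖ ^ α * (Δ φ x) ^ 2) =ᶠ[𝓝 0] fun _ => 0 := by
        filter_upwards [h1] with y hy
        rw [hy]; simp
      exact continuousAt_const.congr h4.symm
    · apply ContinuousAt.mul
      · exact continuous_norm.continuousAt.rpow_const (Or.inl (norm_ne_zero_iff.mpr hx))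
      · exact ((lap_continuous hφ.1).pow 2).continuousAt
  have hcs : HasCompactSupport (fun x : E n => ‖x‖ ^ α * (Δ φ x) ^ 2) := by
    apply HasCompactSupport.mul_left
    have := lap_hasCompactSupport hφ.1 hφ.2.1
    exact this.comp_left (g := fun t : ℝ => t ^ 2) (by norm_num)
  have hint := hcont.integrable_of_hasCompactSupport hcs (μ := (volume : Measure (E n)))
  have h3 := hint.hasFiniteIntegral
  rw [hasFiniteIntegral_iff_ofReal] at h3
  · exact h3
  · filter_upwards with x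
    positivity

/-- Pointwise representation of a test function. -/
theorem test_eq_pot (hn : 3 ≤ n) {φ : E n → ℝ} (hφ : TestFn φ) (x : E n) :
    φ x = -(kap n)⁻¹ * pot (Δ φ) x := by
  have h := newton_repr hn hφ.1 hφ.2.1 x
  have hκ := kap_pos hn
  unfold pot
  rw [h]
  field_simp

theorem pot_sub_ae (hn : 3 ≤ n) {α : ℝ} (h1 : 4 - (n : ℝ) < α) (h2 : α < n) {f g : E n → ℝ}
    (hf : AEMeasurable f) (hfw : wsq α f < ∞) (hg : AEMeasurable g) (hgw : wsq α g < ∞) :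
    ∀ᵐ x : E n, pot f x - pot g x = pot (fun y => f y - g y) x := by
  filter_upwards [ae_lintegral_lt_top hn h1 h2 hf hfw, ae_lintegral_lt_top hn h1 h2 hg hgw] with x i1 i2
  unfold pot
  rw [← integral_sub i1 i2]
  congr 1
  funext y
  ring

/-- `L¹` convergence on compact sets of a sequence of test functions whose Laplacians converge. -/
theorem test_tendsto (hn : 3 ≤ n) {α : ℝ} (h1 : 4 - (n : ℝ) < α) (h2 : α < n) {f : E n → ℝ}
    (hf : AEMeasurable f) (hfw : wsq α f < ∞) {φ : ℕ → E n → ℝ} (hφ : ∀ k, TestFn (φ k))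
    (hlim : Tendsto (fun k => wsq α (fun x => Δ (φ k) x - f x)) atTop (𝓝 0)) {K : Set (E n)} (hK : IsCompact K) :
    Tendsto (fun k => ∫⁻ x in K, ‖φ k x - (-(kap n)⁻¹ * pot f x)‖ₑ) atTop (𝓝 0) := by
  obtain ⟨r, hr⟩ := hK.isBounded.subset_ball (0 : E n)
  set ρ : ℝ := max r 1 with hρ
  have hKρ : K ⊆ Metric.ball (0 : E n) ρ := hr.trans (Metric.ball_subset_ball (le_max_left _ _))
  obtain ⟨C, hC, hb⟩ := lintegral_enorm_pot_le (n := n) hn α (ρ := ρ) (le_max_right _ _)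
  have hle : ∀ k, ∫⁻ x in K, ‖φ k x - (-(kap n)⁻¹ * pot f x)‖ₑ ≤
      ‖(kap n)⁻¹‖ₑ * (C * (Cw n α ^ (1 / 2 : ℝ) * wsq α (fun x => Δ (φ k) x - f x) ^ (1 / 2 : ℝ))) := by
    intro k
    have e1 : ∀ᵐ x : E n, ‖φ k x - (-(kap n)⁻¹ * pot f x)‖ₑ =
        ‖(kap n)⁻¹‖ₑ * ‖pot (fun y => Δ (φ k) y - f y) x‖ₑ := by
      filter_upwards [pot_sub_ae hn h1 h2 (lap_continuous (hφ k).1).aemeasurable (test_wsq_lt_top (hφ k) α) hf hfw]
        with x hx
      rw [← hx, test_eq_pot hn (hφ k) x, ← enorm_mul, ← enorm_neg]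
      congr 1
      ring
    calc ∫⁻ x in K, ‖φ k x - (-(kap n)⁻¹ * pot f x)‖ₑ
        = ∫⁻ x in K, ‖(kap n)⁻¹‖ₑ * ‖pot (fun y => Δ (φ k) y - f y) x‖ₑ :=
          lintegral_congr_ae (ae_restrict_of_ae e1)
      _ = ‖(kap n)⁻¹‖ₑ * ∫⁻ x in K, ‖pot (fun y => Δ (φ k) y - f y) x‖ₑ :=
          lintegral_const_mul' _ _ enorm_ne_top
      _ ≤ ‖(kap n)⁻¹‖ₑ * ∫⁻ x in Metric.ball (0 : E n) ρ, ‖pot (fun y => Δ (φ k) y - f y) x‖ₑ :=
          mul_le_mul' le_rfl (lintegral_mono_set hKρ)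
      _ ≤ _ := mul_le_mul' le_rfl (hb _ ((lap_continuous (hφ k).1).aemeasurable.sub hf))
  have hlim2 : Tendsto (fun k => ‖(kap n)⁻¹‖ₑ * (C * (Cw n α ^ (1 / 2 : ℝ) *
      wsq α (fun x => Δ (φ k) x - f x) ^ (1 / 2 : ℝ)))) atTop (𝓝 0) := by
    have e0 : Tendsto (fun k => wsq α (fun x => Δ (φ k) x - f x) ^ (1 / 2 : ℝ)) atTop (𝓝 0) := by
      have := hlim.ennrpow_const (1 / 2 : ℝ)
      simpa using this
    have hCw : Cw n α ^ (1 / 2 : ℝ) ≠ ∞ :=
      (ENNReal.rpow_lt_top_of_nonneg (by norm_num) (Cw_lt_top hn h1 h2).ne).ne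
    have e1 := ENNReal.Tendsto.const_mul e0 (Or.inr hCw)
    have e2 := ENNReal.Tendsto.const_mul e1 (Or.inr hC.ne)
    have e3 := ENNReal.Tendsto.const_mul e2 (Or.inr (enorm_ne_top (x := (kap n)⁻¹)))
    simpa using e3
  exact tendsto_of_tendsto_of_tendsto_of_le_of_le tendsto_const_nhds hlim2 (fun _ => zero_le) hle

theorem pot_aestronglyMeasurable {f : E n → ℝ} (hf : AEMeasurable f) :
    AEStronglyMeasurable (pot f) (volume : Measure (E n)) := by
  unfold pot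
  apply AEStronglyMeasurable.integral_prod_right' (f := fun p : E n × E n => ker p.1 p.2 * f p.2)
  apply AEMeasurable.aestronglyMeasurable
  apply AEMeasurable.mul
  · exact ker_measurable.aemeasurable
  · exact hf.comp_snd

/-- Two limits on all compact subsets of the punctured space coincide. -/
theorem ae_eq_of_tendsto (hn : 3 ≤ n) {φ : ℕ → E n → ℝ} {u w : E n → ℝ}
    (hφ : ∀ k, Continuous (φ k)) (hu : AEStronglyMeasurable u (volume : Measure (E n)))
    (hw : AEStronglyMeasurable w (volume : Measure (E n)))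
    (h1 : ∀ K : Set (E n), IsCompact K → (0 : E n) ∉ K →
      Tendsto (fun k => ∫⁻ x in K, ‖φ k x - u x‖ₑ) atTop (𝓝 0))
    (h2 : ∀ K : Set (E n), IsCompact K → (0 : E n) ∉ K →
      Tendsto (fun k => ∫⁻ x in K, ‖φ k x - w x‖ₑ) atTop (𝓝 0)) : u =ᵐ[volume] w := by
  have hK : ∀ K : Set (E n), IsCompact K → (0 : E n) ∉ K → ∀ᵐ x ∂(volume.restrict K), u x = w x := by
    intro K hK h0
    have h3 : ∫⁻ x in K, ‖u x - w x‖ₑ = 0 := by
      have h4 : ∀ k, ∫⁻ x in K, ‖u x - w x‖ₑ ≤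
          (∫⁻ x in K, ‖φ k x - u x‖ₑ) + ∫⁻ x in K, ‖φ k x - w x‖ₑ := by
        intro k
        rw [← lintegral_add_left']
        · apply lintegral_mono
          intro x
          show ‖u x - w x‖ₑ ≤ ‖φ k x - u x‖ₑ + ‖φ k x - w x‖ₑ
          have : u x - w x = -(φ k x - u x) + (φ k x - w x) := by ring
          rw [this]
          refine le_trans (enorm_add_le _ _) ?_
          rw [enorm_neg]
        · exact (((hφ k).aestronglyMeasurable.sub hu).enorm).restrict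
      have h5 := (h1 K hK h0).add (h2 K hK h0)
      rw [add_zero] at h5
      exact le_antisymm (ge_of_tendsto' h5 h4) zero_le
    have hmm : AEMeasurable (fun x => ‖u x - w x‖ₑ) (volume.restrict K) := ((hu.sub hw).enorm).restrict
    rw [lintegral_eq_zero_iff' hmm] at h3
    filter_upwards [h3] with x hx
    have : u x - w x = 0 := by simpa using hx
    linarith
  -- exhaust the punctured space
  have hann : ∀ j : ℕ, ∀ᵐ x ∂(volume.restrict {x : E n | ‖x‖ ≤ j ∧ 1 / ((j : ℝ) + 1) ≤ ‖x‖}), u x = w x := by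
    intro j
    apply hK
    · have : {x : E n | ‖x‖ ≤ j ∧ 1 / ((j : ℝ) + 1) ≤ ‖x‖} =
          Metric.closedBall 0 (j : ℝ) ∩ {x : E n | 1 / ((j : ℝ) + 1) ≤ ‖x‖} := by
        ext x; simp
      rw [this]
      exact (isCompact_closedBall _ _).inter_right (isClosed_le continuous_const continuous_norm)
    · intro h
      have := h.2
      rw [norm_zero] at this
      have h2 : 0 < 1 / ((j : ℝ) + 1) := by positivity
      linarith
  have h6 := (ae_restrict_iUnion_iff (fun j : ℕ => {x : E n | ‖x‖ ≤ j ∧ 1 / ((j : ℝ) + 1) ≤ ‖x‖}) _).mpr hann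
  have hun : (⋃ j : ℕ, {x : E n | ‖x‖ ≤ j ∧ 1 / ((j : ℝ) + 1) ≤ ‖x‖}) = {0}ᶜ := by
    ext x
    simp only [Set.mem_iUnion, Set.mem_compl_iff, Set.mem_singleton_iff]
    constructor
    · rintro ⟨j, hj1, hj2⟩ rfl
      rw [norm_zero] at hj2
      have h2 : 0 < 1 / ((j : ℝ) + 1) := by positivity
      linarith
    · intro hx
      have hx0 : 0 < ‖x‖ := norm_pos_iff.mpr hx
      obtain ⟨j1, hj1⟩ := exists_nat_ge ‖x‖
      obtain ⟨j2, hj2⟩ := exists_nat_one_div_lt hx0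
      refine ⟨max j1 j2, ?_, ?_⟩
      · exact le_trans hj1 (by exact_mod_cast le_max_left _ _)
      · refine le_trans ?_ hj2.le
        apply one_div_le_one_div_of_le (by positivity)
        have : (j2 : ℝ) ≤ (max j1 j2 : ℕ) := by exact_mod_cast le_max_right _ _
        linarith
  rw [hun] at h6
  have h7 := ae_imp_of_ae_restrict h6
  filter_upwards [h7, ae_ne hn 0] with x hx hx'
  exact hx hx'

/-- Completeness: a Cauchy sequence of test functions has converging Laplacians. -/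
theorem exists_limit (hn : 3 ≤ n) {α : ℝ} {φ : ℕ → E n → ℝ} (hφ : ∀ k, TestFn (φ k))
    (hcau : ∀ ε : ℝ≥0∞, 0 < ε → ∃ N, ∀ k ≥ N, ∀ l ≥ N, wsq α (fun x => Δ (φ k) x - Δ (φ l) x) < ε) :
    ∃ f : E n → ℝ, AEMeasurable f ∧ wsq α f < ∞ ∧
      Tendsto (fun k => wsq α (fun x => Δ (φ k) x - f x)) atTop (𝓝 0) ∧
      Tendsto (fun k => wsq α (Δ (φ k))) atTop (𝓝 (wsq α f)) := by
  have hm : ∀ k, AEMeasurable (Δ (φ k)) := fun k => (lap_continuous (hφ k).1).aemeasurable
  have hL : ∀ k, MemLp (tw α (Δ (φ k))) 2 volume := fun k => tw_memLp hn (hm k) (test_wsq_lt_top (hφ k) α)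
  let G : ℕ → Lp ℝ 2 (volume : Measure (E n)) := fun k => (hL k).toLp _
  have hdist : ∀ k l, ENNReal.ofReal (‖G k - G l‖ ^ 2) = wsq α (fun x => Δ (φ k) x - Δ (φ l) x) := by
    intro k l
    have e1 : tw α (fun x => Δ (φ k) x - Δ (φ l) x) = tw α (Δ (φ k)) - tw α (Δ (φ l)) := by
      funext x; simp [tw, mul_sub]
    rw [wsq_eq_eLpNorm hn, e1, ← MemLp.toLp_sub, Lp.norm_toLp, ENNReal.ofReal_pow ENNReal.toReal_nonneg,
      ENNReal.ofReal_toReal ((hL k).sub (hL l)).eLpNorm_ne_top]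
  have hG : CauchySeq G := by
    rw [Metric.cauchySeq_iff]
    intro ε hε
    obtain ⟨N, hN⟩ := hcau (ENNReal.ofReal (ε ^ 2)) (ENNReal.ofReal_pos.mpr (by positivity))
    refine ⟨N, fun k hk l hl => ?_⟩
    have := hN k hk l hl
    rw [← hdist, ENNReal.ofReal_lt_ofReal_iff (by positivity)] at this
    rw [dist_eq_norm]
    exact lt_of_pow_lt_pow_left₀ 2 hε.le this
  obtain ⟨g, hg⟩ := cauchySeq_tendsto_of_complete hG
  set f : E n → ℝ := fun x => ‖x‖ ^ (-(α / 2)) * g x with hf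
  have hgm : AEMeasurable (g : E n → ℝ) := (Lp.aestronglyMeasurable g).aemeasurable
  have hfm : AEMeasurable f := by
    apply AEMeasurable.mul _ hgm
    apply Measurable.aemeasurable; fun_prop
  have htw : tw α f =ᵐ[volume] g := by
    filter_upwards [ae_ne hn 0] with x hx
    have hx0 : 0 < ‖x‖ := norm_pos_iff.mpr hx
    simp only [tw, hf]
    rw [← mul_assoc, ← Real.rpow_add hx0]
    have : α / 2 + -(α / 2) = 0 := by ring
    rw [this, Real.rpow_zero, one_mul]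
  have hfL : MemLp (tw α f) 2 volume := (Lp.memLp g).ae_eq htw.symm
  have hfg : hfL.toLp _ = g := by
    apply Lp.ext
    exact hfL.coeFn_toLp.trans htw
  have hfw : wsq α f < ∞ := by
    rw [wsq_eq_norm hn hfL]; exact ENNReal.ofReal_lt_top
  refine ⟨f, hfm, hfw, ?_, ?_⟩
  · have h1 : ∀ k, wsq α (fun x => Δ (φ k) x - f x) = ENNReal.ofReal (‖G k - g‖ ^ 2) := by
      intro k
      have e1 : tw α (fun x => Δ (φ k) x - f x) = tw α (Δ (φ k)) - tw α f := by
        funext x; simp [tw, mul_sub]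
      rw [wsq_eq_eLpNorm hn, e1, ← hfg, ← MemLp.toLp_sub, Lp.norm_toLp, ENNReal.ofReal_pow ENNReal.toReal_nonneg,
        ENNReal.ofReal_toReal ((hL k).sub hfL).eLpNorm_ne_top]
    simp_rw [h1]
    have h2 : Tendsto (fun k => ‖G k - g‖ ^ 2) atTop (𝓝 (‖g - g‖ ^ 2)) := ((hg.sub_const g).norm).pow 2
    rw [sub_self, norm_zero] at h2
    have h3 := ENNReal.tendsto_ofReal h2
    simpa using h3
  · have h1 : ∀ k, wsq α (Δ (φ k)) = ENNReal.ofReal (‖G k‖ ^ 2) := fun k => wsq_eq_norm hn (hL k)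
    simp_rw [h1]
    rw [wsq_eq_norm hn hfL, hfg]
    exact ENNReal.tendsto_ofReal (hg.norm.pow 2)

end Pool.Agent.Helper52.CKN
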